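import Mathlib

/-!
# Stationary weak independence relations and free `H₄`-free 3-hypertournaments: abstract core

`Ctx R G I` collects: `R` is an `H₄`-free 3-hypertournament on an infinite set, invariant under a
group `G` of permutations, in which one point may be replaced by a point with any prescribed
`H₄`-free `R`-type over a finite set (`pm`), and `I A B C` (read: `B` is independent from `C` over
`A`) is a stationary weak independence relation for `G`-orbits.
-/

set_option linter.unusedSectionVars false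

namespace H48SWIR

universe u

variable {V : Type u} [DecidableEq V]

/-- The standing assumptions. -/
structure Ctx (R : V → V → V → Prop) (G : Subgroup (Equiv.Perm V))
    (I : Finset V → Finset V → Finset V → Prop) : Prop where
  inf : Infinite V
  rot : ∀ x y z, R x y z → R y z x
  asym : ∀ x y z, R x y z → ¬ R x z y
  tot : ∀ x y z, x ≠ y → y ≠ z → z ≠ x → R x y z ∨ R x z y
  free : ∀ b x y z, R b x y → R b y z → R b z x → R x y z
  rinv : ∀ g ∈ G, ∀ x y z, R x y z → R (g x) (g y) (g z)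
  pm : ∀ (D : Finset V) (z : V) (T : V → V → Prop), z ∉ D →
    (∀ u ∈ D, ∀ w ∈ D, T u w → ¬ T w u) →
    (∀ u ∈ D, ∀ w ∈ D, u ≠ w → T u w ∨ T w u) →
    (∀ u ∈ D, ∀ v ∈ D, ∀ w ∈ D, T u v → T v w → T w u → R u v w) →
    ∃ z', z' ∉ D ∧ (∀ u ∈ D, ∀ w ∈ D, (R z' u w ↔ T u w)) ∧
      ∀ Y ⊆ D, (∀ u ∈ Y, ∀ w ∈ Y, (R z u w ↔ T u w)) → ∃ g ∈ G, (∀ y ∈ Y, g y = y) ∧ g z = z'
  inv : ∀ g ∈ G, ∀ A B C : Finset V, I A B C → I (A.image g) (B.image g) (C.image g)
  monr : ∀ A B C D : Finset V, I A B (C ∪ D) → I A B C ∧ I (A ∪ C) B D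
  monl : ∀ A B C D : Finset V, I A (B ∪ D) C → I A B C ∧ I (A ∪ B) D C
  trr : ∀ A B C D : Finset V, I A B C → I (A ∪ C) B D → I A B (C ∪ D)
  trl : ∀ A B C D : Finset V, I A B C → I (A ∪ B) D C → I A (B ∪ D) C
  ex : ∀ A B C : Finset V, ∃ g ∈ G, (∀ a ∈ A, g a = a) ∧ I A (B.image g) C
  sta : ∀ A B C : Finset V, ∀ g ∈ G, ∀ k ∈ G, (∀ a ∈ A, g a = a) → (∀ a ∈ A, k a = a) → I A B C →
    I A (B.image g) (C.image k) →
    ∃ l ∈ G, (∀ a ∈ A, l a = a) ∧ (∀ b ∈ B, l b = g b) ∧ ∀ c ∈ C, l c = k c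

/-- `x` and `x'` have the same type over `A`. -/
def Tp (G : Subgroup (Equiv.Perm V)) (A : Finset V) (x x' : V) : Prop :=
  ∃ g ∈ G, (∀ a ∈ A, g a = a) ∧ g x = x'

section tp

variable {G : Subgroup (Equiv.Perm V)} {A A' : Finset V} {x y z : V}

theorem Tp.refl (A : Finset V) (x : V) : Tp G A x x := ⟨1, G.one_mem, fun _ _ => rfl, rfl⟩

theorem Tp.symm (h : Tp G A x y) : Tp G A y x := by
  obtain ⟨g, hg, ha, hx⟩ := h
  refine ⟨g⁻¹, G.inv_mem hg, fun a haA => ?_, ?_⟩
  · rw [Equiv.Perm.inv_eq_iff_eq]; exact (ha a haA).symm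
  · rw [Equiv.Perm.inv_eq_iff_eq]; exact hx.symm

theorem Tp.trans (h : Tp G A x y) (h' : Tp G A y z) : Tp G A x z := by
  obtain ⟨g, hg, ha, hx⟩ := h
  obtain ⟨k, hk, ka, kx⟩ := h'
  refine ⟨k * g, G.mul_mem hk hg, fun a haA => ?_, ?_⟩
  · rw [Equiv.Perm.mul_apply, ha a haA, ka a haA]
  · rw [Equiv.Perm.mul_apply, hx, kx]

theorem Tp.mono (h : Tp G A x y) (hA : A' ⊆ A) : Tp G A' x y := by
  obtain ⟨g, hg, ha, hx⟩ := h
  exact ⟨g, hg, fun a haA => ha a (hA haA), hx⟩

theorem Tp.notMem (h : Tp G A x y) (hx : x ∉ A) : y ∉ A := by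
  obtain ⟨g, hg, ha, hxy⟩ := h
  intro hy
  have : g y = g x := by rw [ha y hy, hxy]
  exact hx (by rw [← g.injective this]; exact hy)

end tp

namespace Ctx

variable {R : V → V → V → Prop} {G : Subgroup (Equiv.Perm V)}
  {I : Finset V → Finset V → Finset V → Prop}

/-- The mirror independence relation. -/
theorem mirror (h : Ctx R G I) : Ctx R G (fun A B C => I A C B) where
  inf := h.inf
  rot := h.rot
  asym := h.asym
  tot := h.tot
  free := h.free
  rinv := h.rinv
  pm := h.pm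
  inv := fun g hg A B C hI => h.inv g hg A C B hI
  monr := fun A B C D hI => h.monl A C B D hI
  monl := fun A B C D hI => h.monr A C B D hI
  trr := fun A B C D h1 h2 => h.trl A C B D h1 h2
  trl := fun A B C D h1 h2 => h.trr A C B D h1 h2
  ex := by
    intro A B C
    obtain ⟨g, hg, ha, hI⟩ := h.ex A C B
    refine ⟨g⁻¹, G.inv_mem hg, fun a haA => ?_, ?_⟩
    · rw [Equiv.Perm.inv_eq_iff_eq]; exact (ha a haA).symm
    · have := h.inv g⁻¹ (G.inv_mem hg) _ _ _ hI
      have e1 : A.image (g⁻¹ : Equiv.Perm V) = A := by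
        ext x
        simp only [Finset.mem_image]
        constructor
        · rintro ⟨a, haA, rfl⟩
          have : (g⁻¹ : Equiv.Perm V) a = a := by
            rw [Equiv.Perm.inv_eq_iff_eq]; exact (ha a haA).symm
          rw [this]; exact haA
        · intro hx
          refine ⟨x, hx, ?_⟩
          rw [Equiv.Perm.inv_eq_iff_eq]; exact (ha x hx).symm
      have e2 : (C.image g).image (g⁻¹ : Equiv.Perm V) = C := by
        ext x
        simp only [Finset.mem_image]
        constructor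
        · rintro ⟨_, ⟨y, hy, rfl⟩, rfl⟩
          simpa using hy
        · intro hx
          exact ⟨g x, ⟨x, hx, rfl⟩, by simp⟩
      rw [e1, e2] at this
      exact this
  sta := by
    intro A B C g hg k hk ga ka h1 h2
    obtain ⟨l, hl, la, lb, lc⟩ := h.sta A C B k hk g hg ka ga h1 h2
    exact ⟨l, hl, la, lc, lb⟩

/-- The opposite hypertournament. -/
theorem op (h : Ctx R G I) : Ctx (fun x y z => R x z y) G I where
  inf := h.inf
  rot := fun x y z hR => h.rot _ _ _ (h.rot _ _ _ hR)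
  asym := fun x y z hR hR' => h.asym _ _ _ hR hR'
  tot := fun x y z h1 h2 h3 => (h.tot x y z h1 h2 h3).symm
  free := fun b x y z h1 h2 h3 => h.free b x z y h3 h2 h1
  rinv := fun g hg x y z hR => h.rinv g hg _ _ _ hR
  pm := by
    intro D z T hz h1 h2 h3
    obtain ⟨z', hz', ha, hY⟩ := h.pm D z (fun a b => T b a) hz
      (fun u hu w hw hT => h1 w hw u hu hT) (fun u hu w hw hne => (h2 u hu w hw hne).symm)
      (fun u hu v hv w hw huv hvw hwu => h3 u hu w hw v hv hwu hvw huv)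
    refine ⟨z', hz', fun u hu w hw => ha w hw u hu, fun Y hYD hY' => ?_⟩
    exact hY Y hYD (fun u hu w hw => hY' w hw u hu)
  inv := h.inv
  monr := h.monr
  monl := h.monl
  trr := h.trr
  trl := h.trl
  ex := h.ex
  sta := h.sta

section basic

variable (h : Ctx R G I)

include h

theorem irr1 {x z : V} : ¬ R x x z := fun hR => h.asym _ _ _ hR (h.rot _ _ _ hR)

theorem irr2 {x z : V} : ¬ R x z z := fun hR => h.asym _ _ _ hR hR

theorem irr3 {x z : V} : ¬ R x z x := fun hR => h.irr2 (h.rot _ _ _ hR)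

theorem ne12 {x y z : V} (hR : R x y z) : x ≠ y := by rintro rfl; exact h.irr1 hR

theorem ne23 {x y z : V} (hR : R x y z) : y ≠ z := by rintro rfl; exact h.irr2 hR

theorem ne31 {x y z : V} (hR : R x y z) : z ≠ x := by rintro rfl; exact h.irr3 hR

theorem rot2 {x y z : V} (hR : R x y z) : R z x y := h.rot _ _ _ (h.rot _ _ _ hR)

theorem flip {x y z : V} (hR : ¬ R x y z) (h1 : x ≠ y) (h2 : y ≠ z) (h3 : z ≠ x) : R x z y :=
  (h.tot x y z h1 h2 h3).resolve_left hR

theorem rinv_iff {g : Equiv.Perm V} (hg : g ∈ G) (x y z : V) :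
    R (g x) (g y) (g z) ↔ R x y z := by
  refine ⟨fun hR => ?_, h.rinv g hg x y z⟩
  have := h.rinv g⁻¹ (G.inv_mem hg) _ _ _ hR
  simpa using this

/-- The closedness rule. -/
theorem closed {a b c w : V} (h1 : R b c a) (h2 : R b a w) (h3 : R c w a) : R b c w :=
  h.free a b c w (h.rot2 h1) (h.rot2 h3) (h.rot _ _ _ h2)

theorem hr {A A' B C C' : Finset V} (hI : I A B C) (h1 : A ⊆ A') (h2 : A' ⊆ A ∪ C)
    (h3 : C' ⊆ C) : I A' B C' := by
  have e1 : C = (A' ∩ C) ∪ C := by
    ext x; simp only [Finset.mem_union, Finset.mem_inter]; tauto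
  rw [e1] at hI
  have hI' := (h.monr _ _ _ _ hI).2
  have e2 : A ∪ A' ∩ C = A' := by
    ext x
    have := @h1 x
    have := @h2 x
    simp only [Finset.mem_union, Finset.mem_inter] at *
    tauto
  have e3 : C = C' ∪ C := (Finset.union_eq_right.2 h3).symm
  rw [e2, e3] at hI'
  exact (h.monr _ _ _ _ hI').1

theorem hl {A A' B B' C : Finset V} (hI : I A B C) (h1 : A ⊆ A') (h2 : A' ⊆ A ∪ B)
    (h3 : B' ⊆ B) : I A' B' C :=
  h.mirror.hr (B := C) (C := B) hI h1 h2 h3

/-- Right existence. -/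
theorem exr (A B : Finset V) (c : V) : ∃ c', Tp G A c c' ∧ I A B {c'} := by
  obtain ⟨g, hg, ha, hI⟩ := h.mirror.ex A {c} B
  refine ⟨g c, ⟨g, hg, ha, rfl⟩, ?_⟩
  simpa using hI

theorem exl (A C : Finset V) (b : V) : ∃ b', Tp G A b b' ∧ I A {b'} C := by
  obtain ⟨g, hg, ha, hI⟩ := h.ex A {b} C
  refine ⟨g b, ⟨g, hg, ha, rfl⟩, ?_⟩
  simpa using hI

theorem exl2 (A C : Finset V) (b b₁ : V) :
    ∃ g ∈ G, (∀ a ∈ A, g a = a) ∧ I A {g b, g b₁} C := by
  obtain ⟨g, hg, ha, hI⟩ := h.ex A {b, b₁} C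
  refine ⟨g, hg, ha, ?_⟩
  simpa [Finset.image_insert] using hI

theorem inv1 {g : Equiv.Perm V} (hg : g ∈ G) {A B : Finset V} (ha : ∀ a ∈ A, g a = a)
    (hb : ∀ a ∈ B, g a = a) {c : V} (hI : I A B {c}) : I A B {g c} := by
  have := h.inv g hg _ _ _ hI
  have e1 : A.image g = A := by
    ext x
    simp only [Finset.mem_image]
    constructor
    · rintro ⟨a, haA, rfl⟩; rw [ha a haA]; exact haA
    · intro hx; exact ⟨x, hx, ha x hx⟩
  have e2 : B.image g = B := by
    ext x
    simp only [Finset.mem_image]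
    constructor
    · rintro ⟨a, haA, rfl⟩; rw [hb a haA]; exact haA
    · intro hx; exact ⟨x, hx, hb x hx⟩
  rw [e1, e2] at this
  simpa using this

/-- Modification of a point by blocks. -/
theorem block (D : Finset V) (z : V) (hz : z ∉ D) (β : V → ℕ) :
    ∃ z', z' ∉ D ∧ (∀ u ∈ D, ∀ w ∈ D, β u < β w → R z' u w) ∧
      ∀ Y ⊆ D, (∀ u ∈ Y, ∀ w ∈ Y, β u < β w → R z u w) → Tp G Y z z' := by
  obtain ⟨z', h1, h2, h3⟩ := h.pm D z (fun u w => β u < β w ∨ (β u = β w ∧ R z u w)) hz
    (by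
      rintro u hu w hw (h1 | ⟨h1, h2⟩) (h3 | ⟨h3, h4⟩)
      · omega
      · omega
      · omega
      · exact h.asym _ _ _ h2 h4)
    (by
      intro u hu w hw hne
      rcases lt_trichotomy (β u) (β w) with h1 | h1 | h1
      · exact Or.inl (Or.inl h1)
      · rcases h.tot z u w (by rintro rfl; exact hz hu) hne (by rintro rfl; exact hz hw) with h2 | h2
        · exact Or.inl (Or.inr ⟨h1, h2⟩)
        · exact Or.inr (Or.inr ⟨h1.symm, h2⟩)
      · exact Or.inr (Or.inl h1))
    (by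
      intro u hu v hv w hw h1 h2 h3
      have e1 : β u = β v := by
        rcases h1 with h1 | h1 <;> rcases h2 with h2 | h2 <;> rcases h3 with h3 | h3 <;> omega
      have e2 : β v = β w := by
        rcases h1 with h1 | h1 <;> rcases h2 with h2 | h2 <;> rcases h3 with h3 | h3 <;> omega
      have k1 : R z u v := by rcases h1 with h1 | h1; · omega
                              · exact h1.2
      have k2 : R z v w := by rcases h2 with h1 | h1; · omega
                              · exact h1.2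
      have k3 : R z w u := by rcases h3 with h1 | h1; · omega
                              · exact h1.2
      exact h.free z u v w k1 k2 k3)
  refine ⟨z', h1, fun u hu w hw hlt => (h2 u hu w hw).2 (Or.inl hlt), fun Y hY hY' => ?_⟩
  refine h3 Y hY (fun u hu w hw => ⟨fun hR => ?_, ?_⟩)
  · rcases lt_trichotomy (β u) (β w) with h4 | h4 | h4
    · exact Or.inl h4
    · exact Or.inr ⟨h4, hR⟩
    · exact absurd (hY' w hw u hu h4) (h.asym _ _ _ hR)
  · rintro (h4 | ⟨_, h4⟩)
    · exact hY' u hu w hw h4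
    · exact h4

/-- Every type over a finite set `A` of a point outside `A` is realised outside any finite set. -/
theorem avoid {A : Finset V} {x : V} (hx : x ∉ A) (D : Finset V) :
    ∃ y, Tp G A x y ∧ y ∉ A ∧ y ∉ D := by
  have := h.inf
  obtain ⟨d, hd⟩ := Infinite.exists_notMem_finset (insert x A)
  obtain ⟨d', hd'⟩ := Infinite.exists_notMem_finset (insert d (insert x A))
  simp only [Finset.mem_insert, not_or] at hd hd'
  set F := ((A ∪ D) ∪ {d, d'}).erase x with hF
  have hxF : x ∉ F := by simp [hF]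
  have hAF : A ⊆ F := by
    intro a ha
    simp only [hF, Finset.mem_erase, Finset.mem_union]
    exact ⟨by rintro rfl; exact hx ha, Or.inl (Or.inl ha)⟩
  have hdF : d ∈ F := by simp [hF, hd.1]
  have hd'F : d' ∈ F := by simp [hF, hd'.2.1]
  obtain ⟨z1, a1, b1, c1⟩ := h.block F x hxF (fun v => if v = d then 1 else if v = d' then 2 else 0)
  obtain ⟨z2, a2, b2, c2⟩ := h.block F x hxF (fun v => if v = d then 2 else if v = d' then 1 else 0)
  have key : ∀ v ∈ A, v ≠ d ∧ v ≠ d' := by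
    intro v hv
    exact ⟨by rintro rfl; exact hd.2 hv, by rintro rfl; exact hd'.2.2 hv⟩
  have t1 : Tp G A x z1 := c1 A hAF (by
    intro u hu w hw hlt
    simp [(key u hu).1, (key u hu).2, (key w hw).1, (key w hw).2] at hlt)
  have t2 : Tp G A x z2 := c2 A hAF (by
    intro u hu w hw hlt
    simp [(key u hu).1, (key u hu).2, (key w hw).1, (key w hw).2] at hlt)
  have r1 : R z1 d d' := b1 d hdF d' hd'F (by simp [hd'.1])
  have r2 : R z2 d' d := b2 d' hd'F d hdF (by simp [hd'.1])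
  have hne : z1 ≠ z2 := by rintro rfl; exact h.asym _ _ _ r1 r2
  have fin : ∀ z, z ∉ F → z ≠ x → z ∉ D := by
    intro z hz hzx hD
    apply hz
    simp only [hF, Finset.mem_erase, Finset.mem_union]
    exact ⟨hzx, Or.inl (Or.inr hD)⟩
  by_cases hz : z1 = x
  · refine ⟨z2, t2, t2.notMem hx, fin z2 a2 ?_⟩
    rintro rfl; exact hne hz
  · exact ⟨z1, t1, t1.notMem hx, fin z1 a1 hz⟩

/-- Independent points outside the base are distinct. -/
theorem disj {A : Finset V} {b c : V} (hI : I A {b} {c}) (hc : c ∉ A) : b ≠ c := by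
  rintro rfl
  obtain ⟨b', hb', -, hne⟩ := h.avoid hc {b}
  obtain ⟨c', hc', hI'⟩ := h.exl A {b, b'} b
  obtain ⟨g, hg, ga, gb⟩ := hc'
  obtain ⟨k, hk, ka, kb⟩ := hb'
  have i1 : I A {c'} {b} := h.hr hI' subset_rfl Finset.subset_union_left (by simp)
  have i2 : I A {c'} {b'} := h.hr hI' subset_rfl Finset.subset_union_left (by simp)
  obtain ⟨l, -, -, l1, l2⟩ := h.sta A {b} {b} g hg 1 G.one_mem ga (fun _ _ => rfl) hI
    (by simpa [gb] using i1)
  obtain ⟨m, -, -, m1, m2⟩ := h.sta A {b} {b} g hg k hk ga ka hI (by simpa [gb, kb] using i2)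
  have e1 : c' = b := by
    have q1 := l1 b (by simp)
    have q2 := l2 b (by simp)
    rw [← gb, ← q1, q2]; rfl
  have e2 : c' = b' := by
    have q1 := m1 b (by simp)
    have q2 := m2 b (by simp)
    rw [← gb, ← q1, q2, kb]
  apply hne
  rw [← e2, e1]
  simp

/-- Stationarity for one point on each side. -/
theorem val {A : Finset V} {b c b₁ c₁ a : V} (hI : I A {b} {c}) (hI₁ : I A {b₁} {c₁})
    (hb : Tp G A b b₁) (hc : Tp G A c c₁) (ha : a ∈ A) : R b c a ↔ R b₁ c₁ a := by
  obtain ⟨g, hg, ga, gb⟩ := hb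
  obtain ⟨k, hk, ka, kb⟩ := hc
  obtain ⟨l, hl, la, l1, l2⟩ := h.sta A {b} {c} g hg k hk ga ka hI (by simpa [gb, kb] using hI₁)
  have e1 : l b = b₁ := by rw [l1 b (by simp), gb]
  have e2 : l c = c₁ := by rw [l2 c (by simp), kb]
  rw [← h.rinv_iff hl b c a, e1, e2, la a ha]

/-- Stationarity for one point on the left and a fixed set on the right. -/
theorem val2 {A C : Finset V} {b b₁ x y : V} (hI : I A {b} C) (hI₁ : I A {b₁} C)
    (hb : Tp G A b b₁) (hx : x ∈ C) (hy : y ∈ C) : R b x y ↔ R b₁ x y := by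
  obtain ⟨g, hg, ga, gb⟩ := hb
  obtain ⟨l, hl, la, l1, l2⟩ := h.sta A {b} C g hg 1 G.one_mem ga (fun _ _ => rfl) hI
    (by simpa [gb] using hI₁)
  have e1 : l b = b₁ := by rw [l1 b (by simp), gb]
  have e2 : l x = x := by rw [l2 x hx]; rfl
  have e3 : l y = y := by rw [l2 y hy]; rfl
  rw [← h.rinv_iff hl b x y, e1, e2, e3]

end basic

end Ctx

end H48SWIR
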