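import Pool.Agent.H48SWIR.Star

/-!
# The contradiction
-/

set_option linter.unusedSectionVars false

namespace H48SWIR

universe u

variable {V : Type u} [DecidableEq V]

namespace Ctx

variable {R : V → V → V → Prop} {G : Subgroup (Equiv.Perm V)}
  {I : Finset V → Finset V → Finset V → Prop}

theorem lemF (h : Ctx R G I) {c₀ b₀ : V} {A : Finset V} {b₁ b₂ c w₁ w₂ w₃ w₄ : V}
    (hI : I A {b₁, b₂} {c}) (hb₁ : b₁ ∉ A) (hb₂ : b₂ ∉ A) (hc : c ∉ A)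
    (hb : Ord R G I c₀ b₁ b₂)
    (hw₁ : w₁ ∈ A) (hw₂ : w₂ ∈ A) (hw₃ : w₃ ∈ A) (hw₄ : w₄ ∈ A)
    (k1 : ¬ R b₁ c w₁) (k2 : ¬ R b₁ c w₂) (k3 : R b₂ c w₃) (k4 : R b₂ c w₄)
    (l1 : Ord R G I c₀ w₁ b₁) (l2 : OrdM R G I b₀ c w₂)
    (l3 : Ord R G I c₀ b₂ w₃) (l4 : OrdM R G I b₀ w₄ c) : False := by
  have hm := h.mirror
  -- the points `c = f₁`, `f₂`, `f₃`
  obtain ⟨f₂, hf₂, hf₂A, hS12⟩ := hm.ord_up (c₀ := b₀) hc
  obtain ⟨e, he, heA, hS2e⟩ := hm.ord_up (c₀ := b₀) hf₂A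
  have hS1e := hm.ord_trans hS12 hS2e
  have hn12 := hm.ord_ne hS12
  have hA1 : ∀ a ∈ A, a ≠ c := by rintro a ha rfl; exact hc ha
  have hA2 : ∀ a ∈ A, a ≠ f₂ := by rintro a ha rfl; exact hf₂A ha
  obtain ⟨f₃, hf₃n, hf₃v, hf₃Y⟩ := h.block (A ∪ {c, f₂}) e (by
    simp only [Finset.mem_union, Finset.mem_insert, Finset.mem_singleton, not_or]
    exact ⟨heA, (hm.ord_ne hS1e).symm, (hm.ord_ne hS2e).symm⟩)
    (fun v => if v = f₂ then 0 else if v = c then 1 else 2)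
  simp only [Finset.mem_union, Finset.mem_insert, Finset.mem_singleton, not_or] at hf₃n
  obtain ⟨hf₃A, hf₃c, hf₃f₂⟩ := hf₃n
  have hA3 : ∀ a ∈ A, a ≠ f₃ := by rintro a ha rfl; exact hf₃A ha
  have F1 : R f₃ f₂ c := hf₃v f₂ (by simp) c (by simp) (by simp [hn12])
  have F4 : Tp G A f₂ f₃ := he.trans (hf₃Y A Finset.subset_union_left (by
    intro u hu w hw hlt
    simp [hA1 u hu, hA1 w hw, hA2 u hu, hA2 w hw] at hlt))
  have F5 : OrdM R G I b₀ f₂ f₃ := (hm.ord_tp (hf₃Y {f₂} (by simp) (by simp)) (by simp)).1 hS2e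
  have F6 : OrdM R G I b₀ c f₃ := hm.ord_trans hS12 F5
  have F7 : Tp G A c f₃ := hf₂.trans F4
  -- move the `b`s
  obtain ⟨g, hg, ga, hIg⟩ := h.exl2 A {c, f₂, f₃} b₁ b₂
  set p₁ := g b₁ with hp₁
  set p₂ := g b₂ with hp₂
  have T1 : Tp G A b₁ p₁ := ⟨g, hg, ga, rfl⟩
  have T2 : Tp G A b₂ p₂ := ⟨g, hg, ga, rfl⟩
  have hp₁A := T1.notMem hb₁
  have hp₂A := T2.notMem hb₂
  have P12 : Ord R G I c₀ p₁ p₂ := h.ord_inv1 hg hb
  have I1 : I A {b₁} {c} := h.hl hI subset_rfl Finset.subset_union_left (by simp)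
  have I2 : I A {b₂} {c} := h.hl hI subset_rfl Finset.subset_union_left (by simp)
  have J1 : I A {p₁} {c, f₂, f₃} := h.hl hIg subset_rfl Finset.subset_union_left (by simp)
  have J2 : I A {p₂} {c, f₂, f₃} := h.hl hIg subset_rfl Finset.subset_union_left (by simp)
  have V1 : ∀ f, Tp G A c f → f ∈ ({c, f₂, f₃} : Finset V) → ∀ a ∈ A,
      (R p₁ f a ↔ R b₁ c a) := by
    intro f hf hfm a ha
    exact (h.val I1 (h.hr J1 subset_rfl Finset.subset_union_left (by simpa using hfm)) T1 hf ha).symm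
  have V2 : ∀ f, Tp G A c f → f ∈ ({c, f₂, f₃} : Finset V) → ∀ a ∈ A,
      (R p₂ f a ↔ R b₂ c a) := by
    intro f hf hfm a ha
    exact (h.val I2 (h.hr J2 subset_rfl Finset.subset_union_left (by simpa using hfm)) T2 hf ha).symm
  have sub1 : ∀ x y : V, x ∈ ({c, f₂, f₃} : Finset V) → A ∪ {x} ⊆ A ∪ {c, f₂, f₃} := by
    intro x _ hx u hu
    simp only [Finset.mem_union, Finset.mem_insert, Finset.mem_singleton] at hu hx ⊢
    rcases hu with hu | rfl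
    · exact Or.inl hu
    · exact Or.inr hx
  -- the values given by the star rule
  have E1 : R p₁ f₂ f₃ := by
    have d1 : p₁ ≠ f₂ := h.disj (h.hr J1 subset_rfl Finset.subset_union_left (by simp)) hf₂A
    have d2 : p₁ ≠ f₃ := h.disj (h.hr J1 subset_rfl Finset.subset_union_left (by simp)) hf₃A
    have hI' : I (A ∪ {f₂}) {p₁} {f₃} := h.hr J1 Finset.subset_union_left
      (sub1 f₂ f₂ (by simp)) (by simp)
    by_contra hcon
    have hR : R p₁ f₃ f₂ := h.flip hcon d1 (Ne.symm hf₃f₂) d2.symm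
    refine h.starM (b₀ := b₀) hI' ?_ ?_ (x := f₂) (x' := w₂) (by simp) (by simp [hw₂]) hR
      (hm.ord_asym F5) ?_ ((hm.ord_tp' F7 hw₂).1 l2)
    · simp only [Finset.mem_union, Finset.mem_singleton, not_or]; exact ⟨hp₁A, d1⟩
    · simp only [Finset.mem_union, Finset.mem_singleton, not_or]; exact ⟨hf₃A, hf₃f₂⟩
    · rw [V1 f₃ F7 (by simp) w₂ hw₂]; exact k2
  have E2 : ¬ R p₂ f₂ c := by
    have d1 : p₂ ≠ f₂ := h.disj (h.hr J2 subset_rfl Finset.subset_union_left (by simp)) hf₂A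
    have d2 : p₂ ≠ c := h.disj (h.hr J2 subset_rfl Finset.subset_union_left (by simp)) hc
    have hI' : I (A ∪ {f₂}) {p₂} {c} := h.hr J2 Finset.subset_union_left
      (sub1 f₂ f₂ (by simp)) (by simp)
    intro hcon
    have hR : ¬ R p₂ c f₂ := h.asym _ _ _ hcon
    refine h.starM (b₀ := b₀) hI' ?_ ?_ (x := w₄) (x' := f₂) (by simp [hw₄]) (by simp)
      ((V2 c (Tp.refl _ _) (by simp) w₄ hw₄).2 k4) (hm.ord_asym l4) hR hS12
    · simp only [Finset.mem_union, Finset.mem_singleton, not_or]; exact ⟨hp₂A, d1⟩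
    · simp only [Finset.mem_union, Finset.mem_singleton, not_or]; exact ⟨hc, hn12⟩
  -- the point `b*`
  have K1 : I A {p₁} {c} := h.hr J1 subset_rfl Finset.subset_union_left (by simp)
  have dd1 : p₁ ≠ c := h.disj K1 hc
  have dd2 : p₂ ≠ c := h.disj (h.hr J2 subset_rfl Finset.subset_union_left (by simp)) hc
  have dd3 : p₁ ≠ f₃ := h.disj (h.hr J1 subset_rfl Finset.subset_union_left (by simp)) hf₃A
  have dd4 : p₂ ≠ f₃ := h.disj (h.hr J2 subset_rfl Finset.subset_union_left (by simp)) hf₃A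
  have dd5 : p₁ ≠ p₂ := h.ord_ne P12
  obtain ⟨e', he'1, he'2, he'n⟩ := h.ord_dense_avoid (A ∪ {c, f₃}) P12
  have he'm : e' ∉ A ∪ {c, f₃, p₁, p₂} := by
    simp only [Finset.mem_union, Finset.mem_insert, Finset.mem_singleton, not_or] at he'n ⊢
    exact ⟨he'n.1, he'n.2.1, he'n.2.2, (h.ord_ne he'1).symm, h.ord_ne he'2⟩
  obtain ⟨q, hqn, hqv, hqY⟩ := h.block (A ∪ {c, f₃, p₁, p₂}) e' he'm
    (fun v => if v = p₁ then 0 else if v = f₃ then 1 else if v = c then 2 else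
      if v = p₂ then 3 else 4)
  have q1 : Ord R G I c₀ p₁ q := (h.ord_tp (hqY {p₁} (by simp) (by simp)) (by simp)).1 he'1
  have q2 : Ord R G I c₀ q p₂ := (h.ord_tp' (hqY {p₂} (by simp) (by simp)) (by simp)).1 he'2
  have q3 : R q p₁ f₃ := hqv p₁ (by simp) f₃ (by simp) (by simp [dd3.symm])
  have q4 : R q f₃ c := hqv f₃ (by simp) c (by simp) (by simp [dd3.symm, dd1.symm, Ne.symm hf₃c])
  have q5 : R q c p₂ := hqv c (by simp) p₂ (by simp)
    (by simp [dd1.symm, Ne.symm hf₃c, dd5.symm, dd4, dd2])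
  simp only [Finset.mem_union, Finset.mem_insert, Finset.mem_singleton, not_or] at hqn
  obtain ⟨hqA, hqc, hqf₃, hqp₁, hqp₂⟩ := hqn
  -- the point `f`
  obtain ⟨f, hf, hIf⟩ := h.exr (A ∪ {c, f₃}) {p₁, q, p₂} f₂
  have hf₂B : f₂ ∉ A ∪ {c, f₃} := by
    simp only [Finset.mem_union, Finset.mem_insert, Finset.mem_singleton, not_or]
    exact ⟨hf₂A, hn12.symm, Ne.symm hf₃f₂⟩
  have hfB := hf.notMem hf₂B
  have sub2 : A ∪ {c, f₃} ⊆ A ∪ {c, f₂, f₃} := by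
    intro u hu
    simp only [Finset.mem_union, Finset.mem_insert, Finset.mem_singleton] at hu ⊢
    tauto
  have L1 : I (A ∪ {c, f₃}) {p₁} {f₂} := h.hr J1 Finset.subset_union_left sub2 (by simp)
  have L2 : I (A ∪ {c, f₃}) {p₂} {f₂} := h.hr J2 Finset.subset_union_left sub2 (by simp)
  have M1 : I (A ∪ {c, f₃}) {p₁} {f} := h.hl hIf subset_rfl Finset.subset_union_left (by simp)
  have M2 : I (A ∪ {c, f₃}) {p₂} {f} := h.hl hIf subset_rfl Finset.subset_union_left (by simp)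
  have Mq : I (A ∪ {c, f₃}) {q} {f} := h.hl hIf subset_rfl Finset.subset_union_left (by simp)
  have W1 : ∀ a ∈ A ∪ {c, f₃}, (R p₁ f a ↔ R p₁ f₂ a) := fun a ha =>
    (h.val L1 M1 (Tp.refl _ _) hf ha).symm
  have W2 : ∀ a ∈ A ∪ {c, f₃}, (R p₂ f a ↔ R p₂ f₂ a) := fun a ha =>
    (h.val L2 M2 (Tp.refl _ _) hf ha).symm
  have hp₁B : p₁ ∉ A ∪ {c, f₃} := by
    simp only [Finset.mem_union, Finset.mem_insert, Finset.mem_singleton, not_or]
    exact ⟨hp₁A, dd1, dd3⟩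
  have hp₂B : p₂ ∉ A ∪ {c, f₃} := by
    simp only [Finset.mem_union, Finset.mem_insert, Finset.mem_singleton, not_or]
    exact ⟨hp₂A, dd2, dd4⟩
  have hqB : q ∉ A ∪ {c, f₃} := by
    simp only [Finset.mem_union, Finset.mem_insert, Finset.mem_singleton, not_or]
    exact ⟨hqA, hqc, hqf₃⟩
  have X1 : R q f f₃ := by
    refine h.lemE (c₀ := c₀) (A := A ∪ {c, f₃}) (b := q) (b₁ := p₁) (c := f) (w := w₁) (a := f₃)
      ?_ hqB hp₁B hfB (by simp [hw₁]) (by simp) ((h.ord_tp T1 hw₁).1 l1) ?_ ?_ q1 ?_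
    · exact h.hl hIf subset_rfl Finset.subset_union_left (by
        intro u hu; simp only [Finset.mem_insert, Finset.mem_singleton] at hu ⊢; tauto)
    · rw [W1 w₁ (by simp [hw₁]), V1 f₂ hf₂ (by simp) w₁ hw₁]; exact k1
    · rw [W1 f₃ (by simp)]; exact E1
    · exact h.rot2 q3
  have X2 : ¬ R q f c := by
    refine h.lemE' (c₀ := c₀) (A := A ∪ {c, f₃}) (b := q) (b₂ := p₂) (c := f) (w := w₃) (a := c)
      ?_ hqB hp₂B hfB (by simp [hw₃]) (by simp) ((h.ord_tp' T2 hw₃).1 l3) ?_ ?_ q2 ?_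
    · exact h.hl hIf subset_rfl Finset.subset_union_left (by
        intro u hu; simp only [Finset.mem_insert, Finset.mem_singleton] at hu ⊢; tauto)
    · rw [W2 w₃ (by simp [hw₃]), V2 f₂ hf₂ (by simp) w₃ hw₃]; exact k3
    · rw [W2 c (by simp)]; exact E2
    · exact h.rot _ _ _ q5
  have hfc : f ≠ c := by rintro rfl; simp at hfB
  have X3 : R q c f := h.flip X2 (h.disj Mq hfB) hfc (Ne.symm hqc)
  have X4 : R f f₃ c := h.free q f f₃ c X1 q4 X3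
  have X5 : R f₂ c f₃ := h.rot _ _ _ F1
  obtain ⟨g', hg', ga', gf'⟩ := hf
  have X6 : R f c f₃ := by
    have := h.rinv g' hg' _ _ _ X5
    rwa [gf', ga' c (by simp), ga' f₃ (by simp)] at this
  exact h.asym _ _ _ X4 X6

theorem lemG (h : Ctx R G I) {c₀ b₀ : V} {A : Finset V} {b₁ c a w₁ w₂ w₃ w₄ : V}
    (hI : I A {b₁} {c}) (hb₁ : b₁ ∉ A) (hc : c ∉ A) (ha : a ∈ A)
    (hw₁ : w₁ ∈ A) (hw₂ : w₂ ∈ A) (hw₃ : w₃ ∈ A) (hw₄ : w₄ ∈ A)
    (k0 : R b₁ c a) (k1 : ¬ R b₁ c w₁) (k2 : ¬ R b₁ c w₂)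
    (l1 : Ord R G I c₀ w₁ b₁) (l2 : OrdM R G I b₀ c w₂)
    (l3 : Ord R G I c₀ b₁ w₃) (l4 : OrdM R G I b₀ w₄ c)
    (m3 : R c w₃ a) (m4 : R c w₄ a) : False := by
  obtain ⟨e, he, heA, heO⟩ := h.ord_up (c₀ := c₀) hb₁
  obtain ⟨b₂, hb₂n, hb₂v, hb₂Y⟩ := h.block (A ∪ {b₁}) e (by
    simp only [Finset.mem_union, Finset.mem_singleton, not_or]
    exact ⟨heA, (h.ord_ne heO).symm⟩)
    (fun v => if v = b₁ then 0 else if v = a then 1 else 2)
  simp only [Finset.mem_union, Finset.mem_singleton, not_or] at hb₂n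
  have hb₁A : ∀ x ∈ A, x ≠ b₁ := by rintro x hx rfl; exact hb₁ hx
  have O12 : Ord R G I c₀ b₁ b₂ := (h.ord_tp (hb₂Y {b₁} (by simp) (by simp)) (by simp)).1 heO
  have r1 : R b₂ b₁ a := hb₂v b₁ (by simp) a (by simp [ha]) (by simp [hb₁A a ha])
  have r2 : ∀ x ∈ A, x ≠ a → R b₂ a x := fun x hx hxa => hb₂v a (by simp [ha]) x (by simp [hx])
    (by simp [hb₁A a ha, hb₁A x hx, hxa])
  have O2 : ∀ x ∈ A, (Ord R G I c₀ b₁ x → Ord R G I c₀ b₂ x) := by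
    intro x hx hO
    have h1 := (h.ord_tp' he hx).1 hO
    exact (h.ord_tp' (hb₂Y {x} (by simp [hx]) (by simp)) (by simp)).1 h1
  obtain ⟨c', hc', hIc'⟩ := h.exr A {b₁, b₂} c
  have hc'A := hc'.notMem hc
  have J1 : I A {b₁} {c'} := h.hl hIc' subset_rfl Finset.subset_union_left (by simp)
  have V1 : ∀ x ∈ A, (R b₁ c' x ↔ R b₁ c x) := fun x hx =>
    (h.val hI J1 (Tp.refl _ _) hc' hx).symm
  have e1 : R b₂ c' a := h.lemE (c₀ := c₀) (b := b₂) (b₁ := b₁) (c := c') (w := w₁) (a := a)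
    (by rw [Finset.pair_comm]; exact hIc') hb₂n.1 hb₁ hc'A hw₁ ha l1
    (by rw [V1 w₁ hw₁]; exact k1) ((V1 a ha).2 k0) O12 (h.rot2 r1)
  have cl : ∀ x ∈ A, R c x a → R b₂ c' x := by
    intro x hx hR
    obtain ⟨g, hg, ga, gc⟩ := hc'
    have hR' := h.rinv g hg _ _ _ hR
    rw [gc, ga x hx, ga a ha] at hR'
    exact h.closed e1 (r2 x hx (h.ne23 hR)) hR'
  exact h.lemF (c₀ := c₀) (b₀ := b₀) hIc' hb₁ hb₂n.1 hc'A O12 hw₁ hw₂ hw₃ hw₄
    (by rw [V1 w₁ hw₁]; exact k1) (by rw [V1 w₂ hw₂]; exact k2) (cl w₃ hw₃ m3) (cl w₄ hw₄ m4)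
    l1 ((h.mirror.ord_tp' hc' hw₂).1 l2) (O2 w₃ hw₃ l3) ((h.mirror.ord_tp hc' hw₄).1 l4)

theorem lemH (h : Ctx R G I) {c₀ b₀ : V} {A : Finset V} {b c w₁ w₂ w₃ w₄ : V}
    (hI : I A {b} {c}) (hb : b ∉ A) (hc : c ∉ A)
    (hw₁ : w₁ ∈ A) (hw₂ : w₂ ∈ A) (hw₃ : w₃ ∈ A) (hw₄ : w₄ ∈ A)
    (l1 : Ord R G I c₀ w₁ b) (l2 : OrdM R G I b₀ c w₂)
    (l3 : Ord R G I c₀ b w₃) (l4 : OrdM R G I b₀ w₄ c) : ∃ x ∈ A, R b c x := by
  by_contra hcon
  have hcon' : ∀ x ∈ A, ¬ R b c x := fun x hx hR => hcon ⟨x, hx, hR⟩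
  have hm := h.mirror
  obtain ⟨e, he, heA, heO⟩ := hm.ord_up (c₀ := b₀) hc
  have hAc : ∀ x ∈ A, x ≠ c := by rintro x hx rfl; exact hc hx
  obtain ⟨c₂, hc₂n, hc₂v, hc₂Y⟩ := h.block (A ∪ {c}) e (by
    simp only [Finset.mem_union, Finset.mem_singleton, not_or]
    exact ⟨heA, (hm.ord_ne heO).symm⟩)
    (fun v => if v = c then 0 else 1)
  simp only [Finset.mem_union, Finset.mem_singleton, not_or] at hc₂n
  have T : Tp G A c c₂ := he.trans (hc₂Y A Finset.subset_union_left (by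
    intro u hu w hw hlt
    simp [hAc u hu, hAc w hw] at hlt))
  have O12 : OrdM R G I b₀ c c₂ := (hm.ord_tp (hc₂Y {c} (by simp) (by simp)) (by simp)).1 heO
  have r1 : ∀ x ∈ A, R c₂ c x := fun x hx => hc₂v c (by simp) x (by simp [hx])
    (by simp [hAc x hx])
  obtain ⟨b', hb', hIb'⟩ := h.exl A {c, c₂} b
  have hb'A := hb'.notMem hb
  have J1 : I A {b'} {c} := h.hr hIb' subset_rfl Finset.subset_union_left (by simp)
  have J2 : I A {b'} {c₂} := h.hr hIb' subset_rfl Finset.subset_union_left (by simp)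
  have d1 : b' ≠ c := h.disj J1 hc
  have d2 : b' ≠ c₂ := h.disj J2 hc₂n.1
  have K1 : I (A ∪ {c₂}) {b'} {c} := h.hr hIb' Finset.subset_union_left (by
    intro u hu; simp only [Finset.mem_union, Finset.mem_insert, Finset.mem_singleton] at hu ⊢
    tauto) (by simp)
  have K2 : I (A ∪ {c}) {b'} {c₂} := h.hr hIb' Finset.subset_union_left (by
    intro u hu; simp only [Finset.mem_union, Finset.mem_insert, Finset.mem_singleton] at hu ⊢
    tauto) (by simp)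
  have n1 : ∀ x ∈ A, ¬ R b' c x := fun x hx => by
    rw [← h.val hI J1 hb' (Tp.refl _ _) hx]; exact hcon' x hx
  have n2 : ∀ x ∈ A, ¬ R b' c₂ x := fun x hx => by
    rw [← h.val hI J2 hb' T hx]; exact hcon' x hx
  have key : R b' c c₂ := by
    by_contra hk
    have hR : R b' c₂ c := h.flip hk d1 (Ne.symm hc₂n.2) d2.symm
    refine h.starM (b₀ := b₀) K2 ?_ ?_ (x := c) (x' := w₂) (by simp) (by simp [hw₂]) hR
      (hm.ord_asym O12) (n2 w₂ hw₂) ((hm.ord_tp' T hw₂).1 l2)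
    · simp only [Finset.mem_union, Finset.mem_singleton, not_or]; exact ⟨hb'A, d1⟩
    · simp only [Finset.mem_union, Finset.mem_singleton, not_or]; exact hc₂n
  refine h.lemG (c₀ := c₀) (b₀ := b₀) K1 ?_ ?_ (a := c₂) (by simp) (w₁ := w₁) (w₂ := w₂)
    (w₃ := w₃) (w₄ := w₄) (by simp [hw₁]) (by simp [hw₂]) (by simp [hw₃]) (by simp [hw₄]) key
    (n1 w₁ hw₁) (n1 w₂ hw₂) ((h.ord_tp hb' hw₁).1 l1) l2 ((h.ord_tp' hb' hw₃).1 l3) l4
    (h.rot _ _ _ (r1 w₃ hw₃)) (h.rot _ _ _ (r1 w₄ hw₄))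
  · simp only [Finset.mem_union, Finset.mem_singleton, not_or]; exact ⟨hb'A, d2⟩
  · simp only [Finset.mem_union, Finset.mem_singleton, not_or]; exact ⟨hc, Ne.symm hc₂n.2⟩

/-- There is no such context. -/
theorem false (h : Ctx R G I) : False := by
  have hm := h.mirror
  have := h.inf
  obtain ⟨c₀⟩ : Nonempty V := inferInstance
  -- three points in mirrored order
  obtain ⟨c, -, -, hc1⟩ := hm.ord_up (c₀ := c₀) (A := ∅) (x := c₀) (by simp)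
  obtain ⟨t, -, -, hc2⟩ := hm.ord_up (c₀ := c₀) (A := ∅) (x := c) (by simp)
  -- `c₀ < c < t` in the mirrored order; `b` between `c₀` and `t` in the order
  set y₄ := c₀ with hy₄
  have hne : y₄ ≠ t := hm.ord_ne (hm.ord_trans hc1 hc2)
  obtain ⟨b, w₁, w₃, hb1, hb2, hw₁, hw₃⟩ : ∃ b w₁ w₃, Ord R G I c₀ w₁ b ∧ Ord R G I c₀ b w₃ ∧
      w₁ ∈ ({y₄, t} : Finset V) ∧ w₃ ∈ ({y₄, t} : Finset V) := by
    rcases h.ord_total (c₀ := c₀) hne with hO | hO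
    · obtain ⟨b, h1, h2⟩ := h.ord_dense hO
      exact ⟨b, y₄, t, h1, h2, by simp, by simp⟩
    · obtain ⟨b, h1, h2⟩ := h.ord_dense hO
      exact ⟨b, t, y₄, h1, h2, by simp, by simp⟩
  have hbA : b ∉ ({y₄, t} : Finset V) := by
    have hmem : ∀ w ∈ ({y₄, t} : Finset V), w = w₁ ∨ w = w₃ := by
      intro w hw
      have hne' := h.ord_ne (h.ord_trans hb1 hb2)
      simp only [Finset.mem_insert, Finset.mem_singleton] at hw hw₁ hw₃
      rcases hw with rfl | rfl <;> rcases hw₁ with rfl | rfl <;> rcases hw₃ with rfl | rfl <;>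
        simp_all
    intro hb
    rcases hmem b hb with rfl | rfl
    · exact h.ord_irrefl hb1
    · exact h.ord_irrefl hb2
  have hcA : c ∉ ({y₄, t} : Finset V) := by
    simp only [Finset.mem_insert, Finset.mem_singleton, not_or]
    exact ⟨(hm.ord_ne hc1).symm, hm.ord_ne hc2⟩
  -- adjust the `R`-types
  obtain ⟨c', hc'n, hc'v, hc'Y⟩ := h.block {y₄, t} c hcA (fun v => if v = y₄ then 0 else 1)
  obtain ⟨b', hb'n, hb'v, hb'Y⟩ := h.block {y₄, t} b hbA (fun v => if v = y₄ then 1 else 0)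
  have C1 : R c' y₄ t := hc'v y₄ (by simp) t (by simp) (by simp [hne.symm])
  have B1 : R b' t y₄ := hb'v t (by simp) y₄ (by simp) (by simp [hne.symm])
  have O1 : ∀ x ∈ ({y₄, t} : Finset V), (Ord R G I c₀ x b → Ord R G I c₀ x b') := fun x hx =>
    (h.ord_tp (hb'Y {x} (by simpa using hx) (by simp)) (by simp)).1
  have O2 : ∀ x ∈ ({y₄, t} : Finset V), (Ord R G I c₀ b x → Ord R G I c₀ b' x) := fun x hx =>
    (h.ord_tp' (hb'Y {x} (by simpa using hx) (by simp)) (by simp)).1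
  have S1 : OrdM R G I c₀ y₄ c' := (hm.ord_tp (hc'Y {y₄} (by simp) (by simp)) (by simp)).1 hc1
  have S2 : OrdM R G I c₀ c' t := (hm.ord_tp' (hc'Y {t} (by simp) (by simp)) (by simp)).1 hc2
  obtain ⟨b₂, hb₂, hI⟩ := h.exl {y₄, t} {c'} b'
  have hb₂A := hb₂.notMem hb'n
  have Q1 : Ord R G I c₀ w₁ b₂ := (h.ord_tp hb₂ hw₁).1 (O1 w₁ hw₁ hb1)
  have Q2 : Ord R G I c₀ b₂ w₃ := (h.ord_tp' hb₂ hw₃).1 (O2 w₃ hw₃ hb2)
  have B2 : R b₂ t y₄ := by
    obtain ⟨g, hg, ga, gb⟩ := hb₂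
    have := h.rinv g hg _ _ _ B1
    rwa [gb, ga t (by simp), ga y₄ (by simp)] at this
  -- the set is not empty
  obtain ⟨x, hx, hRx⟩ := h.lemH (c₀ := c₀) (b₀ := c₀) hI hb₂A hc'n hw₁ (w₂ := t) (by simp) hw₃
    (w₄ := y₄) (by simp) Q1 S2 Q2 S1
  -- the set is not everything
  obtain ⟨y, hy, hRy⟩ := h.op.lemH (c₀ := c₀) (b₀ := c₀) hI hb₂A hc'n hw₃ (w₂ := y₄) (by simp)
    hw₁ (w₄ := t) (by simp) (ord_op.2 Q2) (ord_op.2 S1) (ord_op.2 Q1) (ord_op.2 S2)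
  have hRy' : ¬ R b₂ c' y := h.asym _ _ _ hRy
  simp only [Finset.mem_insert, Finset.mem_singleton] at hx hy
  rcases hx with hx | hx
  · rw [hx] at hRx
    rcases hy with hy | hy
    · rw [hy] at hRy'
      exact hRy' hRx
    · rw [hy] at hRy'
      exact h.starM (b₀ := c₀) hI hb₂A hc'n (x := y₄) (x' := t) (by simp) (by simp) hRx
        (hm.ord_asym S1) hRy' S2
  · rw [hx] at hRx
    rcases hy with hy | hy
    · rw [hy] at hRy'
      exact hRy' (h.closed hRx B2 C1)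
    · rw [hy] at hRy'
      exact hRy' hRx

end Ctx

end H48SWIR
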