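import Pool.Agent.H48SWIR.Main

/-!
# The generic `H₄`-free 3-hypertournament
-/

open FirstOrder FirstOrder.Language

namespace H48SWIR

universe u v w

/-- The relation symbols of `LW`: one ternary symbol. -/
inductive RelW : ℕ → Type
  | R : RelW 3

/-- The language `{R}` with `R` a ternary relation symbol. -/
def LW : FirstOrder.Language.{0, 0} := ⟨fun _ => Empty, RelW⟩

instance : LW.IsRelational := fun _ => inferInstanceAs (IsEmpty Empty)

instance : Countable (Σ l, LW.Functions l) := by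
  have : IsEmpty (Σ l, LW.Functions l) := ⟨fun x => isEmptyElim x.2⟩
  infer_instance

/-- The symbol `R` of `LW`. -/
def rW : LW.Relations 3 := RelW.R

/-- The class of all finite `H₄`-free 3-hypertournaments. -/
def classW : Set (CategoryTheory.Bundled.{0} LW.Structure) :=
  {N | Finite N ∧ IsHypertournament (rel rW N) ∧ ¬ HasH4 (rel rW N)}

theorem rel_emb {N : Type v} {M : Type w} [LW.Structure N] [LW.Structure M] (e : N ↪[LW] M)
    (x y z : N) : rel rW M (e x) (e y) (e z) ↔ rel rW N x y z := by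
  have h := e.map_rel rW ![x, y, z]
  rw [relMap3, relMap3] at h
  exact h

/-- The cyclic order on `Fin n` as a hypertournament. -/
@[reducible] def cycStr (n : ℕ) : LW.Structure (Fin n) where
  funMap := fun {_} (F : Empty) => F.elim
  RelMap := fun {k} (r : RelW k) =>
    match k, r with
    | _, .R => fun x => (x 0 < x 1 ∧ x 1 < x 2) ∨ (x 1 < x 2 ∧ x 2 < x 0) ∨ (x 2 < x 0 ∧ x 0 < x 1)

theorem cyc_mem (n : ℕ) :
    (⟨Fin n, cycStr n⟩ : CategoryTheory.Bundled.{0} LW.Structure) ∈ classW := by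
  have key : ∀ x y z : Fin n, @rel LW rW (Fin n) (cycStr n) x y z ↔
      (x < y ∧ y < z) ∨ (y < z ∧ z < x) ∨ (z < x ∧ x < y) := fun x y z => Iff.rfl
  refine ⟨inferInstanceAs (Finite (Fin n)), ⟨?_, ?_, ?_⟩, ?_⟩
  · intro x y z h
    rw [key] at h
    refine ⟨?_, ?_, ?_⟩ <;> intro h' <;> simp only [Fin.lt_def, Fin.ext_iff] at h h' <;> omega
  · intro x y z h
    rw [key] at h ⊢
    simp only [Fin.lt_def] at h ⊢
    omega
  · intro x y z h1 h2 h3
    rw [key, key]
    simp only [Fin.lt_def, ne_eq, Fin.ext_iff] at h1 h2 h3 ⊢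
    omega
  · rintro ⟨v₀, v₁, v₂, v₃, k1, k2, k3, k4⟩
    rw [key] at k1 k2 k3 k4
    simp only [Fin.lt_def] at k1 k2 k3 k4
    omega

section

variable {W : Type} [Countable W] [LW.Structure W]

theorem generic_hyp (hW : IsFraisseLimit classW W) : IsHypertournament (rel rW W) := by
  classical
  have sub : ∀ x y z : W, ∃ (P : Type) (_ : LW.Structure P) (e : P ↪[LW] W) (a b c : P),
      IsHypertournament (rel rW P) ∧ e a = x ∧ e b = y ∧ e c = z := by
    intro x y z
    set P := clo LW ({x, y, z} : Finset W) with hP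
    have hmem : (⟨P, inferInstance⟩ : CategoryTheory.Bundled.{0} LW.Structure) ∈ LW.age W :=
      ⟨(Substructure.fg_iff_structure_fg P).1 (clo_fg _), ⟨P.subtype⟩⟩
    rw [hW.age] at hmem
    exact ⟨P, inferInstance, P.subtype, ⟨x, mem_clo.2 (by simp)⟩, ⟨y, mem_clo.2 (by simp)⟩,
      ⟨z, mem_clo.2 (by simp)⟩, hmem.2.1, rfl, rfl, rfl⟩
  refine ⟨?_, ?_, ?_⟩
  · intro x y z h
    obtain ⟨P, _, e, a, b, c, hP, rfl, rfl, rfl⟩ := sub x y z
    rw [rel_emb] at h
    have := hP.ne _ _ _ h
    exact ⟨fun h' => this.1 (e.injective h'), fun h' => this.2.1 (e.injective h'),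
      fun h' => this.2.2 (e.injective h')⟩
  · intro x y z h
    obtain ⟨P, _, e, a, b, c, hP, rfl, rfl, rfl⟩ := sub x y z
    rw [rel_emb] at h ⊢
    exact hP.rot _ _ _ h
  · intro x y z h1 h2 h3
    obtain ⟨P, _, e, a, b, c, hP, rfl, rfl, rfl⟩ := sub x y z
    rw [rel_emb, rel_emb]
    exact hP.one _ _ _ (fun h' => h1 (congrArg e h')) (fun h' => h2 (congrArg e h'))
      (fun h' => h3 (congrArg e h'))

theorem generic_noH4 (hW : IsFraisseLimit classW W) : ¬ HasH4 (rel rW W) := by
  classical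
  rintro ⟨v₀, v₁, v₂, v₃, k1, k2, k3, k4⟩
  set P := clo LW ({v₀, v₁, v₂, v₃} : Finset W) with hP
  have hmem : (⟨P, inferInstance⟩ : CategoryTheory.Bundled.{0} LW.Structure) ∈ LW.age W :=
    ⟨(Substructure.fg_iff_structure_fg P).1 (clo_fg _), ⟨P.subtype⟩⟩
  rw [hW.age] at hmem
  apply hmem.2.2
  refine ⟨⟨v₀, mem_clo.2 (by simp)⟩, ⟨v₁, mem_clo.2 (by simp)⟩, ⟨v₂, mem_clo.2 (by simp)⟩,
    ⟨v₃, mem_clo.2 (by simp)⟩, ?_, ?_, ?_, ?_⟩
  · exact (rel_emb P.subtype _ _ _).1 k1
  · exact (rel_emb P.subtype _ _ _).1 k2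
  · exact (rel_emb P.subtype _ _ _).1 k3
  · exact (rel_emb P.subtype _ _ _).1 k4

theorem generic_infinite (hW : IsFraisseLimit classW W) : Infinite W := by
  by_contra hcon
  rw [not_infinite_iff_finite] at hcon
  have := Fintype.ofFinite W
  have hmem := cyc_mem (Fintype.card W + 1)
  rw [← hW.age] at hmem
  have key : ∀ N : CategoryTheory.Bundled.{0} LW.Structure, N ∈ LW.age W →
      ∃ f : N → W, Function.Injective f := by
    rintro N ⟨-, ⟨e⟩⟩
    exact ⟨e, e.injective⟩
  obtain ⟨f, hf⟩ := key _ hmem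
  have h := Fintype.card_le_of_injective (α := Fin (Fintype.card W + 1)) f hf
  simp at h

/-- Sanity check: in `W` itself (no further relations) `R` is free. -/
theorem generic_isFree (hW : IsFraisseLimit classW W) : IsFree rW W := by
  intro A R' hR' hR'4
  let str : LW.Structure A :=
    { funMap := fun {_} (F : Empty) => F.elim
      RelMap := fun {k} (r : RelW k) =>
        match k, r with
        | _, .R => fun x => R' (x 0) (x 1) (x 2) }
  have hmem : (⟨A, str⟩ : CategoryTheory.Bundled.{0} LW.Structure) ∈ classW :=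
    ⟨inferInstanceAs (Finite A), hR', hR'4⟩
  rw [← hW.age] at hmem
  have key : ∀ N : CategoryTheory.Bundled.{0} LW.Structure, N ∈ LW.age W →
      ∃ f : N → W, Function.Injective f ∧
        ∀ x y z : N, rel rW W (f x) (f y) (f z) ↔ rel rW N x y z := by
    rintro N ⟨-, ⟨e⟩⟩
    exact ⟨e, e.injective, rel_emb e⟩
  obtain ⟨f, hf, hfR⟩ := key _ hmem
  refine ⟨f, hf, hfR, ?_⟩
  intro n s hs
  exfalso
  cases s
  exact hs rfl

end

/-- No free expansion of the generic `H₄`-free 3-hypertournament to a relational language has a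
stationary weak independence relation. -/
theorem main {W : Type} [Countable W] [LW.Structure W] (hW : IsFraisseLimit classW W)
    (L : FirstOrder.Language.{u, v}) [L.IsRelational] [L.Structure W] (φ : LW →ᴸ L)
    [φ.IsExpansionOn W] (hL : L.IsUltrahomogeneous W) (hF : IsFree (φ.onRelation rW) W) :
    ¬ ∃ ind : L.Substructure W → L.Substructure W → L.Substructure W → Prop,
      IsSWIR L W ind := by
  have := generic_infinite hW
  have e : rel (φ.onRelation rW) W = rel rW W := by
    funext x y z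
    unfold rel
    rw [LHom.map_onRelation]
  refine no_swir hL (φ.onRelation rW) ?_ ?_ hF
  · rw [e]; exact generic_hyp hW
  · rw [e]; exact generic_noH4 hW

end H48SWIR
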