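import Pool.Agent.H48SWIR.Model

/-!
# No stationary weak independence relation on free expansions
-/

open FirstOrder FirstOrder.Language

namespace H48SWIR

universe u v w

variable {L : FirstOrder.Language.{u, v}} {M : Type w} [L.Structure M] [L.IsRelational]

/-- One point can be moved to a point with a prescribed `R`-type. -/
theorem pm_of_free [DecidableEq M] (hM : L.IsUltrahomogeneous M) {r : L.Relations 3}
    (hT : IsHypertournament (rel r M)) (hH : ¬ HasH4 (rel r M)) (hF : IsFree r M)
    (D : Finset M) (z : M) (T : M → M → Prop) (hz : z ∉ D)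
    (h1 : ∀ u ∈ D, ∀ w ∈ D, T u w → ¬ T w u)
    (h2 : ∀ u ∈ D, ∀ w ∈ D, u ≠ w → T u w ∨ T w u)
    (h3 : ∀ u ∈ D, ∀ v ∈ D, ∀ w ∈ D, T u v → T v w → T w u → rel r M u v w) :
    ∃ z', z' ∉ D ∧ (∀ u ∈ D, ∀ w ∈ D, (rel r M z' u w ↔ T u w)) ∧
      ∀ Y ⊆ D, (∀ u ∈ Y, ∀ w ∈ Y, (rel r M z u w ↔ T u w)) →
        ∃ g ∈ autGroup L M, (∀ y ∈ Y, g y = y) ∧ g z = z' := by
  obtain ⟨f, hf, hfR, hfs⟩ := hF (insert z D) (fun x y w => chg (rel r M) z T x y w)
    (chg_hyp hT h1 h2) (chg_noH4 hT hH h3)
  have hDz : ∀ x ∈ D, x ≠ z := by rintro x hx rfl; exact hz hx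
  have hDi : ∀ x ∈ D, x ∈ insert z D := fun x hx => Finset.mem_insert_of_mem hx
  -- the restriction of `f` to `D` extends
  obtain ⟨g, hg⟩ := extend_aut hM D (fun d => f ⟨d, hDi d d.2⟩)
    (by
      intro x y hxy
      have := hf hxy
      exact Subtype.ext (congrArg (fun t : (insert z D : Finset M) => (t : M)) this))
    (by
      intro n s x
      by_cases hs : (⟨n, s⟩ : Σ n, L.Relations n) = ⟨3, r⟩
      · refine relMap_cases s r hs _ _ (fun i j k => ?_)
        rw [hfR]
        simp [chg, hDz _ (x i).2, hDz _ (x j).2, hDz _ (x k).2]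
      · exact hfs n s hs (fun i => ⟨x i, hDi _ (x i).2⟩))
  have hg' : ∀ d (hd : d ∈ D), g d = f ⟨d, hDi d hd⟩ := fun d hd => hg ⟨d, hd⟩
  set z' := g.symm (f ⟨z, Finset.mem_insert_self z D⟩) with hz'
  have gz' : g z' = f ⟨z, Finset.mem_insert_self z D⟩ := g.apply_symm_apply _
  have hz'D : z' ∉ D := by
    intro hd
    have := (hg' z' hd).symm.trans gz'
    have := hf this
    exact hz (by
      have h4 : (z' : M) = z := congrArg (fun t : (insert z D : Finset M) => (t : M)) this
      rw [← h4]; exact hd)
  refine ⟨z', hz'D, ?_, ?_⟩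
  · intro u hu w hw
    rw [← rel_aut r g, gz', hg' u hu, hg' w hw, hfR]
    simp [chg, hDz u hu, hDz w hw]
  · intro Y hY hYT
    have hYi : ∀ x ∈ insert z Y, x ∈ insert z D := fun x hx => Finset.insert_subset_insert z hY hx
    set F : {x // x ∈ insert z Y} → M := fun x => if (x : M) = z then z' else x with hFd
    have gF : ∀ x, g (F x) = f ⟨x, hYi x x.2⟩ := by
      intro x
      by_cases hx : (x : M) = z
      · simp only [hFd, hx, if_true]
        exact gz'
      · have hxY : (x : M) ∈ Y := (Finset.mem_insert.1 x.2).resolve_left hx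
        simp only [hFd, hx, if_false]
        exact hg' x (hY hxY)
    obtain ⟨k, hk⟩ := extend_aut hM (insert z Y) F
      (by
        intro x y hxy
        have h5 := congrArg g hxy
        rw [gF, gF] at h5
        have := hf h5
        exact Subtype.ext (congrArg (fun t : (insert z D : Finset M) => (t : M)) this))
      (by
        intro n s x
        have e : Structure.RelMap s (fun i => F (x i)) ↔
            Structure.RelMap s (fun i => f ⟨x i, hYi _ (x i).2⟩) := by
          rw [← g.map_rel s (fun i => F (x i))]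
          have : (g ∘ fun i => F (x i)) = fun i => f ⟨x i, hYi _ (x i).2⟩ := by
            funext i; exact gF (x i)
          rw [this]
        rw [e]
        by_cases hs : (⟨n, s⟩ : Σ n, L.Relations n) = ⟨3, r⟩
        · refine relMap_cases s r hs _ _ (fun i j l => ?_)
          rw [hfR]
          have hY' : ∀ x : (insert z Y : Finset M), (x : M) ≠ z → (x : M) ∈ Y := fun x hx =>
            (Finset.mem_insert.1 x.2).resolve_left hx
          have i1 : ∀ a b : M, ¬ rel r M a a b := fun a b h => (hT.ne _ _ _ h).1 rfl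
          have i2 : ∀ a b : M, ¬ rel r M a b b := fun a b h => (hT.ne _ _ _ h).2.1 rfl
          have i3 : ∀ a b : M, ¬ rel r M a b a := fun a b h => (hT.ne _ _ _ h).2.2 rfl
          have rt : ∀ a b c : M, rel r M a b c ↔ rel r M b c a := fun a b c =>
            ⟨fun h => hT.rot _ _ _ h, fun h => hT.rot _ _ _ (hT.rot _ _ _ h)⟩
          by_cases c1 : (x i : M) = z
          · by_cases c2 : (x j : M) = z
            · simp [chg, c1, c2, i1]
            · by_cases c3 : (x l : M) = z
              · simp [chg, c1, c3, i3]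
              · simp [chg, c1, c2, c3, hYT _ (hY' _ c2) _ (hY' _ c3)]
          · by_cases c2 : (x j : M) = z
            · by_cases c3 : (x l : M) = z
              · simp [chg, c2, c3, i2]
              · rw [rt]
                simp [chg, c1, c2, c3, hYT _ (hY' _ c3) _ (hY' _ c1)]
            · by_cases c3 : (x l : M) = z
              · rw [← rt]
                simp [chg, c1, c2, c3, hYT _ (hY' _ c1) _ (hY' _ c2)]
              · simp [chg, c1, c2, c3]
        · exact hfs n s hs (fun i => ⟨x i, hYi _ (x i).2⟩))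
    refine ⟨k.toEquiv, mem_autGroup k, fun y hy => ?_, ?_⟩
    · have := hk ⟨y, Finset.mem_insert_of_mem hy⟩
      have hyz : y ≠ z := hDz y (hY hy)
      simp only [hFd, hyz, if_false] at this
      exact this
    · have := hk ⟨z, Finset.mem_insert_self z Y⟩
      simp only [hFd, if_true] at this
      exact this

theorem ctx_of_swir [DecidableEq M] [Infinite M] (hM : L.IsUltrahomogeneous M)
    {r : L.Relations 3} (hT : IsHypertournament (rel r M)) (hH : ¬ HasH4 (rel r M))
    (hF : IsFree r M) {ind : L.Substructure M → L.Substructure M → L.Substructure M → Prop}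
    (hI : IsSWIR L M ind) :
    Ctx (rel r M) (autGroup L M) (fun A B C => ind (clo L A) (clo L B) (clo L C)) where
  inf := inferInstance
  rot := hT.rot
  asym := fun x y z h => (hT.one x y z (hT.ne _ _ _ h).1 (hT.ne _ _ _ h).2.1
    (hT.ne _ _ _ h).2.2).1 h
  tot := fun x y z h1 h2 h3 => by
    by_cases h : rel r M x z y
    · exact Or.inr h
    · exact Or.inl ((hT.one x y z h1 h2 h3).2 h)
  free := fun b x y z h1 h2 h3 => free_of_noH4 hT hH b x y z h1 h2 h3
  rinv := by
    rintro g hg x y z hR
    obtain ⟨k, hk⟩ := exists_of_mem hg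
    rw [hk, hk, hk, rel_aut]
    exact hR
  pm := fun D z T hz h1 h2 h3 => pm_of_free hM hT hH hF D z T hz h1 h2 h3
  inv := by
    rintro g hg A B C hABC
    obtain ⟨k, hk⟩ := exists_of_mem hg
    show ind _ _ _
    rw [clo_image hk, clo_image hk, clo_image hk]
    exact hI.inv k _ _ _ (clo_fg A) (clo_fg B) (clo_fg C) hABC
  monr := by
    intro A B C D h
    have := hI.mon_right (clo L A) (clo L B) (clo L C) (clo L D) (clo_fg A) (clo_fg B) (clo_fg C)
      (clo_fg D) (by rw [← clo_union]; exact h)
    rw [← clo_union] at this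
    exact this
  monl := by
    intro A B C D h
    have := hI.mon_left (clo L A) (clo L B) (clo L C) (clo L D) (clo_fg A) (clo_fg B) (clo_fg C)
      (clo_fg D) (by rw [← clo_union]; exact h)
    rw [← clo_union] at this
    exact this
  trr := by
    intro A B C D h h'
    have := hI.tr_right (clo L A) (clo L B) (clo L C) (clo L D) (clo_fg A) (clo_fg B) (clo_fg C)
      (clo_fg D) h (by rw [← clo_union]; exact h')
    rw [← clo_union] at this
    exact this
  trl := by
    intro A B C D h h'
    have := hI.tr_left (clo L A) (clo L B) (clo L C) (clo L D) (clo_fg A) (clo_fg B) (clo_fg C)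
      (clo_fg D) h (by rw [← clo_union]; exact h')
    rw [← clo_union] at this
    exact this
  ex := by
    intro A B C
    obtain ⟨B', e, hB', hS, hi⟩ := hI.ex (clo L A) (clo L B) (clo L C) (clo_fg A) (clo_fg B)
      (clo_fg C)
    have := clo_fin (L := L) B
    obtain ⟨g, hg1, hg2⟩ := aut_of_sameTp hM (clo_fin A) hS
    refine ⟨g.toEquiv, mem_autGroup g, fun a ha => hg1 a (mem_clo.2 ha), ?_⟩
    have : B' = clo L (B.image g.toEquiv) := by
      apply clo_ext
      intro x
      simp only [Finset.mem_image]
      constructor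
      · intro hx
        obtain ⟨b, hb⟩ := e.surjective ⟨x, hx⟩
        refine ⟨b, mem_clo.1 b.2, ?_⟩
        have := hg2 b
        rw [hb] at this
        exact this
      · rintro ⟨b, hb, rfl⟩
        have := hg2 ⟨b, mem_clo.2 hb⟩
        show g b ∈ B'
        rw [this]
        exact (e _).2
    show ind _ _ _
    rw [← this]
    exact hi
  sta := by
    intro A B C g hg k hk ga ka h1 h2
    obtain ⟨g', hg'⟩ := exists_of_mem hg
    obtain ⟨k', hk'⟩ := exists_of_mem hk
    have hb : ∀ (X : Finset M) (e : Equiv.Perm M) (x : M),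
        x ∈ clo L X ↔ e x ∈ clo L (X.image e) := by
      intro X e x
      rw [mem_clo, mem_clo, Finset.mem_image]
      constructor
      · intro hx; exact ⟨x, hx, rfl⟩
      · rintro ⟨y, hy, hxy⟩; rw [← e.injective hxy]; exact hy
    have := clo_fin (L := L) B
    have := clo_fin (L := L) C
    have hS := hI.sta (clo L A) (clo L B) (clo L C) (clo L (B.image g)) (clo L (C.image k))
      (clo_fg _) (clo_fg _) (clo_fg _) (clo_fg _) (clo_fg _)
      (g.subtypeEquiv (hb B g)) (k.subtypeEquiv (hb C k))
      (sameTp_of_aut g' (fun a ha => by rw [← hg']; exact ga a (mem_clo.1 ha))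
        (fun b => by rw [← hg']; rfl))
      (sameTp_of_aut k' (fun a ha => by rw [← hk']; exact ka a (mem_clo.1 ha))
        (fun b => by rw [← hk']; rfl)) h1 h2
    obtain ⟨l, hl1, hl2⟩ := aut_of_sameTp hM (clo_fin A) hS
    refine ⟨l.toEquiv, mem_autGroup l, fun a ha => hl1 a (mem_clo.2 ha), fun b hb' => ?_,
      fun c hc' => ?_⟩
    · have := hl2 (Sum.inl ⟨b, mem_clo.2 hb'⟩)
      exact this
    · have := hl2 (Sum.inr ⟨c, mem_clo.2 hc'⟩)
      exact this

/-- Free expansions have no stationary weak independence relation. -/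
theorem no_swir [Infinite M] (hM : L.IsUltrahomogeneous M) (r : L.Relations 3)
    (hT : IsHypertournament (rel r M)) (hH : ¬ HasH4 (rel r M)) (hF : IsFree r M) :
    ¬ ∃ ind : L.Substructure M → L.Substructure M → L.Substructure M → Prop,
      IsSWIR L M ind := by
  classical
  rintro ⟨ind, hI⟩
  exact (ctx_of_swir hM hT hH hF hI).false

end H48SWIR
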