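import Pool.Agent.H48SWIR.Final

/-!
# Stationary weak independence relations in free expansions
-/

open FirstOrder FirstOrder.Language

namespace H48SWIR

universe u v w

/-- 3-hypertournaments: `R` holds for triples of distinct points only, is invariant under rotation,
and of the two cyclic orderings of three distinct points exactly one is chosen. -/
structure IsHypertournament {T : Type w} (R : T → T → T → Prop) : Prop where
  ne : ∀ x y z : T, R x y z → x ≠ y ∧ y ≠ z ∧ z ≠ x
  rot : ∀ x y z : T, R x y z → R y z x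
  one : ∀ x y z : T, x ≠ y → y ≠ z → z ≠ x → (R x y z ↔ ¬ R x z y)

/-- There is a copy of `H₄` (in a 3-hypertournament the points `v₀, v₁, v₂, v₃` are then
automatically distinct and the four triples below determine `R` on them). -/
def HasH4 {T : Type w} (R : T → T → T → Prop) : Prop :=
  ∃ v₀ v₁ v₂ v₃ : T, R v₀ v₁ v₃ ∧ R v₁ v₂ v₃ ∧ R v₂ v₀ v₃ ∧ R v₀ v₂ v₁

variable {L : FirstOrder.Language.{u, v}} {M : Type w} [L.Structure M]

/-- The ternary relation on `M` named by the symbol `r`. -/
def rel (r : L.Relations 3) (M : Type w) [L.Structure M] (x y z : M) : Prop :=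
  Structure.RelMap r ![x, y, z]

/-- The relation `r` is free over the other relations of `M`: on every finite set `A` of points
of `M` the relation `r` can be replaced by any `H₄`-free 3-hypertournament `R'` on `A`, and the
resulting structure still embeds in `M` (by `f`). -/
def IsFree (r : L.Relations 3) (M : Type w) [L.Structure M] : Prop :=
  ∀ (A : Finset M) (R' : A → A → A → Prop), IsHypertournament R' → ¬ HasH4 R' →
    ∃ f : A → M, Function.Injective f ∧
      (∀ x y z : A, rel r M (f x) (f y) (f z) ↔ R' x y z) ∧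
      ∀ (n : ℕ) (s : L.Relations n), (⟨n, s⟩ : Σ n, L.Relations n) ≠ ⟨3, r⟩ →
        ∀ x : Fin n → A, Structure.RelMap s (fun i => f (x i)) ↔
          Structure.RelMap s (fun i => (x i : M))

/-- The tuples `b` and `b'` (indexed by the same index type) have the same complete type over the
substructure `A`: they satisfy the same first-order formulas with parameters from `A`. -/
def SameTp (A : L.Substructure M) {ι : Type w} (b b' : ι → M) : Prop :=
  ∀ φ : L.Formula (A ⊕ ι),
    φ.Realize (Sum.elim (fun a : A => (a : M)) b) ↔ φ.Realize (Sum.elim (fun a : A => (a : M)) b')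

/-- Stationary weak independence relations on the finitely generated substructures of an
`L`-structure `M`; `ind A B C` is read: `B` is independent from `C` over `A`.  A substructure
`B'` together with a bijection `e : B ≃ B'` is used to say that `B'`, enumerated by `e`, has the
same type over `A` as `B`.  For substructures `C`, `D` the substructure generated by `C ∪ D` is
`C ⊔ D`. -/
structure IsSWIR (L : FirstOrder.Language.{u, v}) (M : Type w) [L.Structure M]
    (ind : L.Substructure M → L.Substructure M → L.Substructure M → Prop) : Prop where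
  /-- Invariance. -/
  inv : ∀ (σ : M ≃[L] M) (A B C : L.Substructure M), A.FG → B.FG → C.FG →
    ind A B C → ind (A.map σ.toHom) (B.map σ.toHom) (C.map σ.toHom)
  /-- Monotonicity on the right. -/
  mon_right : ∀ A B C D : L.Substructure M, A.FG → B.FG → C.FG → D.FG →
    ind A B (C ⊔ D) → ind A B C ∧ ind (A ⊔ C) B D
  /-- Monotonicity on the left. -/
  mon_left : ∀ A B C D : L.Substructure M, A.FG → B.FG → C.FG → D.FG →
    ind A (B ⊔ D) C → ind A B C ∧ ind (A ⊔ B) D C
  /-- Transitivity on the right. -/
  tr_right : ∀ A B C D : L.Substructure M, A.FG → B.FG → C.FG → D.FG →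
    ind A B C → ind (A ⊔ C) B D → ind A B (C ⊔ D)
  /-- Transitivity on the left. -/
  tr_left : ∀ A B C D : L.Substructure M, A.FG → B.FG → C.FG → D.FG →
    ind A B C → ind (A ⊔ B) D C → ind A (B ⊔ D) C
  /-- Existence. -/
  ex : ∀ A B C : L.Substructure M, A.FG → B.FG → C.FG →
    ∃ (B' : L.Substructure M) (e : B ≃ B'), B'.FG ∧
      SameTp A (fun b : B => (b : M)) (fun b : B => (e b : M)) ∧ ind A B' C
  /-- Stationarity. -/
  sta : ∀ A B C B' C' : L.Substructure M, A.FG → B.FG → C.FG → B'.FG → C'.FG →
    ∀ (e : B ≃ B') (k : C ≃ C'),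
      SameTp A (fun b : B => (b : M)) (fun b : B => (e b : M)) →
      SameTp A (fun c : C => (c : M)) (fun c : C => (k c : M)) →
      ind A B C → ind A B' C' →
      SameTp A (Sum.elim (fun b : B => (b : M)) (fun c : C => (c : M)))
        (Sum.elim (fun b : B => (e b : M)) (fun c : C => (k c : M)))

/-- Conjugation by an automorphism over `A` preserves the type over `A`. -/
theorem sameTp_of_aut {A : L.Substructure M} {ι : Type w} {b b' : ι → M} (σ : M ≃[L] M)
    (hA : ∀ a ∈ A, σ a = a) (hb : ∀ i, σ (b i) = b' i) : SameTp A b b' := by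
  intro φ
  have h : (Sum.elim (fun a : A => (a : M)) b') = σ ∘ (Sum.elim (fun a : A => (a : M)) b) := by
    funext i
    rcases i with i | i
    · exact (hA i i.2).symm
    · exact (hb i).symm
  rw [h]
  exact (StrongHomClass.realize_formula σ φ).symm

/-- In a relational ultrahomogeneous structure finite partial isomorphisms extend. -/
theorem extend_aut [L.IsRelational] (hM : L.IsUltrahomogeneous M) (D : Finset M) (f : D → M)
    (hf : Function.Injective f)
    (hr : ∀ (n : ℕ) (s : L.Relations n) (x : Fin n → D),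
      Structure.RelMap s (fun i => f (x i)) ↔ Structure.RelMap s (fun i => (x i : M))) :
    ∃ g : M ≃[L] M, ∀ d : D, g d = f d := by
  set S := Substructure.closure L (D : Set M) with hS
  have hmem : ∀ x, x ∈ S ↔ x ∈ D := by
    intro x
    rw [hS, Substructure.mem_closure_iff_of_isRelational]
    simp
  have hFG : S.FG := ⟨D, rfl⟩
  let F : S ↪[L] M :=
    { toFun := fun x => f ⟨x, (hmem x).1 x.2⟩
      inj' := by
        intro x y hxy
        have := hf hxy
        apply Subtype.ext
        exact congrArg (fun t : D => (t : M)) this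
      map_fun' := fun {n} φ => isEmptyElim φ
      map_rel' := by
        intro n s x
        exact hr n s (fun i => ⟨x i, (hmem (x i)).1 (x i).2⟩) }
  obtain ⟨g, hg⟩ := hM S hFG F
  refine ⟨g, fun d => ?_⟩
  have := congrArg (fun t : S ↪[L] M => t ⟨d, (hmem d).2 d.2⟩) hg
  exact this.symm

/-- In a relational ultrahomogeneous structure tuples with the same type are conjugate. -/
theorem aut_of_sameTp [L.IsRelational] (hM : L.IsUltrahomogeneous M) {A : L.Substructure M}
    (hA : Finite A) {ι : Type w} [Finite ι] {b b' : ι → M} (h : SameTp A b b') :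
    ∃ σ : M ≃[L] M, (∀ a ∈ A, σ a = a) ∧ ∀ i, σ (b i) = b' i := by
  classical
  obtain ⟨u, hu⟩ : ∃ u : A ⊕ ι → M, u = Sum.elim (fun a : A => (a : M)) b := ⟨_, rfl⟩
  obtain ⟨u', hu'⟩ : ∃ u' : A ⊕ ι → M, u' = Sum.elim (fun a : A => (a : M)) b' := ⟨_, rfl⟩
  have hφ : ∀ φ : L.Formula (A ⊕ ι), φ.Realize u ↔ φ.Realize u' := by
    intro φ; rw [hu, hu']; exact h φ
  have heq : ∀ i j, u i = u j ↔ u' i = u' j := by
    intro i j
    have := hφ (Term.equal (Term.var i) (Term.var j))
    simpa [Formula.realize_equal] using this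
  have hrel : ∀ (n : ℕ) (s : L.Relations n) (x : Fin n → A ⊕ ι),
      Structure.RelMap s (fun i => u (x i)) ↔ Structure.RelMap s (fun i => u' (x i)) := by
    intro n s x
    have := hφ (Relations.formula s (fun i => Term.var (x i)))
    rw [Formula.realize_rel, Formula.realize_rel] at this
    simpa using this
  have hfin : (Set.range u).Finite := Set.finite_range u
  set D : Finset M := hfin.toFinset with hD
  have hDmem : ∀ x : D, ∃ i, u i = x := by
    intro x
    exact hfin.mem_toFinset.1 x.2
  choose p hp using hDmem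
  obtain ⟨g, hg⟩ := extend_aut hM D (fun x => u' (p x))
    (by
      intro x y hxy
      have := (heq _ _).2 hxy
      rw [hp, hp] at this
      exact Subtype.ext this)
    (by
      intro n s x
      rw [← hrel n s (fun i => p (x i))]
      simp only [hp])
  have key : ∀ i, g (u i) = u' i := by
    intro i
    have hi : u i ∈ D := by rw [hD, Set.Finite.mem_toFinset]; exact ⟨i, rfl⟩
    have := hg ⟨u i, hi⟩
    rw [this]
    exact (heq _ _).1 (hp ⟨u i, hi⟩)
  refine ⟨g, fun a ha => ?_, fun i => ?_⟩
  · have := key (Sum.inl ⟨a, ha⟩)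
    rw [hu, hu'] at this
    exact this
  · have := key (Sum.inr i)
    rw [hu, hu'] at this
    exact this

/-- The automorphism group as a group of permutations. -/
def autGroup (L : FirstOrder.Language.{u, v}) (M : Type w) [L.Structure M] :
    Subgroup (Equiv.Perm M) where
  carrier := {e | ∃ g : M ≃[L] M, ∀ x, e x = g x}
  mul_mem' := by
    rintro e f ⟨g, hg⟩ ⟨k, hk⟩
    refine ⟨g.comp k, fun x => ?_⟩
    rw [Equiv.Perm.mul_apply, hk, hg]
    rfl
  one_mem' := ⟨FirstOrder.Language.Equiv.refl L M, fun x => rfl⟩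
  inv_mem' := by
    rintro e ⟨g, hg⟩
    refine ⟨g.symm, fun x => ?_⟩
    rw [Equiv.Perm.inv_eq_iff_eq, hg]
    exact (g.apply_symm_apply x).symm

theorem mem_autGroup (g : M ≃[L] M) : g.toEquiv ∈ autGroup L M :=
  show ∃ k : M ≃[L] M, ∀ x, g.toEquiv x = k x from ⟨g, fun _ => rfl⟩

theorem exists_of_mem {e : Equiv.Perm M} (he : e ∈ autGroup L M) :
    ∃ g : M ≃[L] M, ∀ x, e x = g x := he

set_option linter.unusedSectionVars false
set_option linter.unusedSimpArgs false

section ctx

variable [L.IsRelational] {ind : L.Substructure M → L.Substructure M → L.Substructure M → Prop}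

/-- Finite sets as substructures. -/
noncomputable def clo (L : FirstOrder.Language.{u, v}) {M : Type w} [L.Structure M] (A : Finset M) :
    L.Substructure M := Substructure.closure L (A : Set M)

theorem mem_clo {A : Finset M} {x : M} : x ∈ clo L A ↔ x ∈ A := by
  rw [clo, Substructure.mem_closure_iff_of_isRelational]
  simp

theorem clo_fg (A : Finset M) : (clo L A).FG := ⟨A, rfl⟩

theorem clo_fin (A : Finset M) : Finite (clo L A) := by
  have : Finite (A : Set M) := A.finite_toSet
  refine Finite.of_injective (fun x : clo L A => (⟨x, mem_clo.1 x.2⟩ : (A : Set M))) ?_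
  intro x y hxy
  apply Subtype.ext
  exact congrArg (fun t : (A : Set M) => (t : M)) hxy

theorem clo_union [DecidableEq M] (A B : Finset M) : clo L (A ∪ B) = clo L A ⊔ clo L B := by
  rw [clo, Finset.coe_union, Substructure.closure_union]; rfl

theorem clo_of_fg (B : L.Substructure M) (hB : B.FG) : ∃ B₀ : Finset M, clo L B₀ = B := by
  obtain ⟨S, hS⟩ := hB
  exact ⟨S, hS⟩

theorem clo_ext {B : L.Substructure M} {A : Finset M} (h : ∀ x, x ∈ B ↔ x ∈ A) : B = clo L A := by
  ext x
  rw [h, mem_clo]

theorem clo_image [DecidableEq M] {e : Equiv.Perm M} {g : M ≃[L] M} (he : ∀ x, e x = g x)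
    (A : Finset M) : clo L (A.image e) = (clo L A).map g.toHom := by
  symm
  apply clo_ext
  intro x
  rw [Substructure.mem_map]
  simp only [Finset.mem_image, mem_clo, he]
  rfl

theorem relMap3 (r : L.Relations 3) (x : Fin 3 → M) :
    Structure.RelMap r x ↔ rel r M (x 0) (x 1) (x 2) := by
  have : x = ![x 0, x 1, x 2] := by
    funext i
    fin_cases i <;> rfl
  unfold rel
  rw [← this]

theorem rel_aut (r : L.Relations 3) (g : M ≃[L] M) (x y z : M) :
    rel r M (g x) (g y) (g z) ↔ rel r M x y z := by
  have h := g.map_rel r ![x, y, z]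
  rw [relMap3, relMap3] at h
  exact h

theorem relMap_cases {n : ℕ} (s : L.Relations n) (r : L.Relations 3)
    (h : (⟨n, s⟩ : Σ n, L.Relations n) = ⟨3, r⟩) (x y : Fin n → M)
    (hxy : ∀ i j k : Fin n, rel r M (x i) (x j) (x k) ↔ rel r M (y i) (y j) (y k)) :
    Structure.RelMap s x ↔ Structure.RelMap s y := by
  cases h
  rw [relMap3, relMap3]
  exact hxy 0 1 2

theorem free_of_noH4 {R : M → M → M → Prop} (hT : IsHypertournament R) (hH : ¬ HasH4 R)
    (b x y z : M) (h1 : R b x y) (h2 : R b y z) (h3 : R b z x) : R x y z := by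
  by_contra hcon
  refine hH ⟨x, y, z, b, hT.rot _ _ _ h1, hT.rot _ _ _ h2, hT.rot _ _ _ h3, ?_⟩
  by_contra hcon'
  exact hcon ((hT.one x y z (hT.ne _ _ _ h1).2.1 (hT.ne _ _ _ h2).2.1 (hT.ne _ _ _ h3).2.1).2 hcon')

/-- The relation `R` changed at the point `z` to the tournament `T`. -/
def chg (R : M → M → M → Prop) (z : M) (T : M → M → Prop) (x y w : M) : Prop :=
  (x ≠ z ∧ y ≠ z ∧ w ≠ z ∧ R x y w) ∨ (x = z ∧ y ≠ z ∧ w ≠ z ∧ T y w) ∨
    (x ≠ z ∧ y = z ∧ w ≠ z ∧ T w x) ∨ (x ≠ z ∧ y ≠ z ∧ w = z ∧ T x y)

theorem chg_hyp {R : M → M → M → Prop} (hT : IsHypertournament R) {D : Finset M} {z : M}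
    {T : M → M → Prop} [DecidableEq M]
    (h1 : ∀ u ∈ D, ∀ w ∈ D, T u w → ¬ T w u)
    (h2 : ∀ u ∈ D, ∀ w ∈ D, u ≠ w → T u w ∨ T w u) :
    IsHypertournament (fun x y w : (insert z D : Finset M) => chg R z T x y w) := by
  have hD : ∀ x : (insert z D : Finset M), (x : M) ≠ z → (x : M) ∈ D := fun x hx =>
    (Finset.mem_insert.1 x.2).resolve_left hx
  refine ⟨?_, ?_, ?_⟩
  · rintro x y w (⟨a1, a2, a3, a4⟩ | ⟨a1, a2, a3, a4⟩ | ⟨a1, a2, a3, a4⟩ | ⟨a1, a2, a3, a4⟩)
    · have := hT.ne _ _ _ a4
      exact ⟨fun h => this.1 (congrArg _ h), fun h => this.2.1 (congrArg _ h),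
        fun h => this.2.2 (congrArg _ h)⟩
    · refine ⟨by rintro rfl; exact a2 a1, ?_, by rintro rfl; exact a3 a1⟩
      rintro rfl
      exact h1 _ (hD _ a2) _ (hD _ a2) a4 a4
    · refine ⟨by rintro rfl; exact a1 a2, by rintro rfl; exact a3 a2, ?_⟩
      rintro rfl
      exact h1 _ (hD _ a1) _ (hD _ a1) a4 a4
    · refine ⟨?_, by rintro rfl; exact a2 a3, by rintro rfl; exact a1 a3⟩
      rintro rfl
      exact h1 _ (hD _ a1) _ (hD _ a1) a4 a4
  · rintro x y w (⟨a1, a2, a3, a4⟩ | ⟨a1, a2, a3, a4⟩ | ⟨a1, a2, a3, a4⟩ | ⟨a1, a2, a3, a4⟩)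
    · exact Or.inl ⟨a2, a3, a1, hT.rot _ _ _ a4⟩
    · exact Or.inr (Or.inr (Or.inr ⟨a2, a3, a1, a4⟩))
    · exact Or.inr (Or.inl ⟨a2, a3, a1, a4⟩)
    · exact Or.inr (Or.inr (Or.inl ⟨a2, a3, a1, a4⟩))
  · intro x y w hxy hyw hwx
    have hxy' : (x : M) ≠ y := fun h => hxy (Subtype.ext h)
    have hyw' : (y : M) ≠ w := fun h => hyw (Subtype.ext h)
    have hwx' : (w : M) ≠ x := fun h => hwx (Subtype.ext h)
    have key : ∀ u w : (insert z D : Finset M), (u : M) ≠ z → (w : M) ≠ z → (u : M) ≠ w →
        (T u w ↔ ¬ T w u) := by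
      intro u w hu hw huw
      refine ⟨h1 _ (hD u hu) _ (hD w hw), fun hn => ?_⟩
      exact (h2 _ (hD u hu) _ (hD w hw) huw).resolve_right hn
    by_cases hx : (x : M) = z
    · have hy : (y : M) ≠ z := fun h => hxy' (hx.trans h.symm)
      have hw : (w : M) ≠ z := fun h => hwx' (h.trans hx.symm)
      have := key y w hy hw hyw'
      simp only [chg, hx, hy, hw, ne_eq, not_true_eq_false, not_false_eq_true, false_and,
        true_and, false_or, or_false, and_true, and_false]
      exact this
    · by_cases hy : (y : M) = z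
      · have hw : (w : M) ≠ z := fun h => hyw' (hy.trans h.symm)
        have := key w x hw hx hwx'
        simp only [chg, hx, hy, hw, ne_eq, not_true_eq_false, not_false_eq_true, false_and,
          true_and, false_or, or_false, and_true, and_false]
        exact this
      · by_cases hw : (w : M) = z
        · have := key x y hx hy hxy'
          simp only [chg, hx, hy, hw, ne_eq, not_true_eq_false, not_false_eq_true, false_and,
            true_and, false_or, or_false, and_true, and_false]
          exact this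
        · have := hT.one _ _ _ hxy' hyw' hwx'
          simp only [chg, hx, hy, hw, ne_eq, not_true_eq_false, not_false_eq_true, false_and,
            true_and, false_or, or_false, and_true, and_false]
          exact this

theorem chg_noH4 {R : M → M → M → Prop} (hT : IsHypertournament R) (hH : ¬ HasH4 R)
    {D : Finset M} {z : M} {T : M → M → Prop} [DecidableEq M]
    (h3 : ∀ u ∈ D, ∀ v ∈ D, ∀ w ∈ D, T u v → T v w → T w u → R u v w) :
    ¬ HasH4 (fun x y w : (insert z D : Finset M) => chg R z T x y w) := by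
  have hD : ∀ x : (insert z D : Finset M), (x : M) ≠ z → (x : M) ∈ D := fun x hx =>
    (Finset.mem_insert.1 x.2).resolve_left hx
  have asym : ∀ x y w : M, R x y w → ¬ R x w y := fun x y w h =>
    (hT.one x y w (hT.ne _ _ _ h).1 (hT.ne _ _ _ h).2.1 (hT.ne _ _ _ h).2.2).1 h
  rintro ⟨v₀, v₁, v₂, v₃, k1, k2, k3, k4⟩
  by_cases c3 : (v₃ : M) = z
  · have c0 : (v₀ : M) ≠ z := by
      rintro c0; simp [chg, c0, c3] at k1
    have c1 : (v₁ : M) ≠ z := by
      rintro c1; simp [chg, c1, c3] at k1
    have c2 : (v₂ : M) ≠ z := by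
      rintro c2; simp [chg, c2, c3] at k2
    simp only [chg, c0, c1, c2, c3, ne_eq, not_true_eq_false, not_false_eq_true, false_and,
      true_and, false_or, or_false, and_true, and_false] at k1 k2 k3 k4
    have := h3 _ (hD _ c0) _ (hD _ c1) _ (hD _ c2) k1 k2 k3
    exact asym _ _ _ this k4
  · by_cases c0 : (v₀ : M) = z
    · have c1 : (v₁ : M) ≠ z := by
        rintro c1; simp [chg, c1, c0] at k1
      have c2 : (v₂ : M) ≠ z := by
        rintro c2; simp [chg, c2, c0] at k3
      simp only [chg, c0, c1, c2, c3, ne_eq, not_true_eq_false, not_false_eq_true, false_and,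
        true_and, false_or, or_false, and_true, and_false] at k1 k2 k3 k4
      have := h3 _ (hD _ c1) _ (hD _ c3) _ (hD _ c2) k1 k3 k4
      exact asym _ _ _ this k2
    · by_cases c1 : (v₁ : M) = z
      · have c2 : (v₂ : M) ≠ z := by
          rintro c2; simp [chg, c2, c1] at k2
        simp only [chg, c0, c1, c2, c3, ne_eq, not_true_eq_false, not_false_eq_true, false_and,
          true_and, false_or, or_false, and_true, and_false] at k1 k2 k3 k4
        have := h3 _ (hD _ c3) _ (hD _ c0) _ (hD _ c2) k1 k4 k2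
        exact asym _ _ _ k3 (hT.rot _ _ _ (hT.rot _ _ _ this))
      · by_cases c2 : (v₂ : M) = z
        · simp only [chg, c0, c1, c2, c3, ne_eq, not_true_eq_false, not_false_eq_true, false_and,
            true_and, false_or, or_false, and_true, and_false] at k1 k2 k3 k4
          have := h3 _ (hD _ c3) _ (hD _ c1) _ (hD _ c0) k2 k4 k3
          exact asym _ _ _ k1 (hT.rot _ _ _ (hT.rot _ _ _ this))
        · simp only [chg, c0, c1, c2, c3, ne_eq, not_true_eq_false, not_false_eq_true, false_and,
            true_and, false_or, or_false, and_true, and_false] at k1 k2 k3 k4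
          exact hH ⟨_, _, _, _, k1, k2, k3, k4⟩

end ctx

end H48SWIR
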