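import Pool.Agent.H48SWIR.Core

/-!
# The linear order read off from independence over the empty set
-/

set_option linter.unusedSectionVars false

namespace H48SWIR

universe u

variable {V : Type u} [DecidableEq V]

/-- `Ord R G I c₀ x y`: `R c x y` holds for `c` of the type of `c₀` with `{x, y}` independent from
`c` over the empty set. -/
def Ord (R : V → V → V → Prop) (G : Subgroup (Equiv.Perm V))
    (I : Finset V → Finset V → Finset V → Prop) (c₀ x y : V) : Prop :=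
  ∃ c, Tp G ∅ c₀ c ∧ I ∅ {x, y} {c} ∧ R c x y

namespace Ctx

variable {R : V → V → V → Prop} {G : Subgroup (Equiv.Perm V)}
  {I : Finset V → Finset V → Finset V → Prop} {c₀ : V}

theorem ord_op {x y : V} : Ord (fun x y z => R x z y) G I c₀ x y ↔ Ord R G I c₀ y x := by
  unfold Ord
  rw [Finset.pair_comm]

variable (h : Ctx R G I)

include h

theorem ord_val {B : Finset V} {c x y : V} (hc : Tp G ∅ c₀ c) (hI : I ∅ B {c}) (hx : x ∈ B)
    (hy : y ∈ B) : R c x y ↔ Ord R G I c₀ x y := by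
  have hI' : I ∅ {x, y} {c} := h.hl hI subset_rfl (by simp) (by
    intro u hu
    simp only [Finset.mem_insert, Finset.mem_singleton] at hu
    rcases hu with rfl | rfl <;> assumption)
  constructor
  · intro hR
    exact ⟨c, hc, hI', hR⟩
  · rintro ⟨c₁, hc₁, hI₁, hR⟩
    exact (h.mirror.val2 (A := ∅) (C := {x, y}) (b := c₁) (b₁ := c) hI₁ hI'
      (hc₁.symm.trans hc) (by simp) (by simp)).1 hR

theorem ord_inv1 {g : Equiv.Perm V} (hg : g ∈ G) {x y : V} (hO : Ord R G I c₀ x y) :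
    Ord R G I c₀ (g x) (g y) := by
  obtain ⟨c, hc, hI, hR⟩ := hO
  refine ⟨g c, hc.trans ⟨g, hg, by simp, rfl⟩, ?_, h.rinv g hg _ _ _ hR⟩
  simpa [Finset.image_insert] using h.inv g hg _ _ _ hI

theorem ord_inv {g : Equiv.Perm V} (hg : g ∈ G) {x y : V} :
    Ord R G I c₀ (g x) (g y) ↔ Ord R G I c₀ x y := by
  refine ⟨fun hO => ?_, h.ord_inv1 hg⟩
  simpa using h.ord_inv1 (G.inv_mem hg) hO

theorem ord_tp {A : Finset V} {x y y' : V} (hy : Tp G A y y') (hx : x ∈ A) :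
    Ord R G I c₀ x y ↔ Ord R G I c₀ x y' := by
  obtain ⟨g, hg, ga, rfl⟩ := hy
  conv_rhs => rw [← ga x hx]
  exact (h.ord_inv hg).symm

theorem ord_tp' {A : Finset V} {x y y' : V} (hy : Tp G A y y') (hx : x ∈ A) :
    Ord R G I c₀ y x ↔ Ord R G I c₀ y' x := by
  obtain ⟨g, hg, ga, rfl⟩ := hy
  conv_rhs => rw [← ga x hx]
  exact (h.ord_inv hg).symm

theorem ord_ex (B : Finset V) : ∃ c, Tp G ∅ c₀ c ∧ I ∅ B {c} ∧ c ∉ B := by
  obtain ⟨c, hc, hI⟩ := h.exr ∅ B c₀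
  refine ⟨c, hc, hI, fun hcB => ?_⟩
  have : I ∅ {c} {c} := h.hl hI subset_rfl (by simp) (by simpa using hcB)
  exact h.disj this (by simp) rfl

theorem ord_asym {x y : V} (hO : Ord R G I c₀ x y) : ¬ Ord R G I c₀ y x := by
  obtain ⟨c, hc, hI, -⟩ := h.ord_ex (c₀ := c₀) {x, y}
  rw [← h.ord_val hc hI (by simp) (by simp)] at hO ⊢
  exact h.asym _ _ _ hO

theorem ord_irrefl {x : V} : ¬ Ord R G I c₀ x x := fun hO => h.ord_asym hO hO

theorem ord_ne {x y : V} (hO : Ord R G I c₀ x y) : x ≠ y := by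
  rintro rfl; exact h.ord_irrefl hO

theorem ord_total {x y : V} (hne : x ≠ y) : Ord R G I c₀ x y ∨ Ord R G I c₀ y x := by
  obtain ⟨c, hc, hI, hcB⟩ := h.ord_ex (c₀ := c₀) {x, y}
  rw [← h.ord_val hc hI (by simp) (by simp), ← h.ord_val hc hI (by simp) (by simp)]
  exact h.tot c x y (by rintro rfl; simp at hcB) hne (by rintro rfl; simp at hcB)

theorem ord_not {x y : V} (hne : x ≠ y) : ¬ Ord R G I c₀ x y ↔ Ord R G I c₀ y x :=
  ⟨fun hn => (h.ord_total hne).resolve_left hn, fun hO hO' => h.ord_asym hO hO'⟩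

theorem ord_trans {x y z : V} (h1 : Ord R G I c₀ x y) (h2 : Ord R G I c₀ y z) :
    Ord R G I c₀ x z := by
  by_contra hcon
  have hxz : x ≠ z := by rintro rfl; exact h.ord_asym h1 h2
  have h3 : Ord R G I c₀ z x := (h.ord_total hxz).resolve_left hcon
  have hxy := h.ord_ne h1
  have hyz := h.ord_ne h2
  -- a 3-cycle with `¬ R x y z`
  obtain ⟨z', hz', k2, k3, k4⟩ : ∃ z', ¬ R x y z' ∧ Ord R G I c₀ y z' ∧ Ord R G I c₀ z' x ∧
      z' ≠ x := by
    obtain ⟨z', hz', hb, hY⟩ := h.block {x, y} z (by simp [hxz.symm, hyz.symm])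
      (fun v => if v = x then 1 else 0)
    refine ⟨z', ?_, ?_, ?_, ?_⟩
    · have : R z' y x := hb y (by simp) x (by simp) (by simp [hxy.symm])
      intro hR
      exact h.asym _ _ _ this (h.rot2 hR)
    · exact (h.ord_tp (hY {y} (by simp) (by simp)) (by simp)).1 h2
    · exact (h.ord_tp' (hY {x} (by simp) (by simp)) (by simp)).1 h3
    · rintro rfl; simp at hz'
  obtain ⟨c, hc, hI, -⟩ := h.ord_ex (c₀ := c₀) {x, y, z'}
  rw [← h.ord_val hc hI (by simp) (by simp)] at h1 k2 k3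
  exact hz' (h.free c x y z' h1 k2 k3)

theorem ord_up {A : Finset V} {x : V} (hx : x ∉ A) :
    ∃ y, Tp G A x y ∧ y ∉ A ∧ Ord R G I c₀ x y := by
  obtain ⟨y, hy, hyA, hne⟩ := h.avoid hx {x}
  have hne' : x ≠ y := by rintro rfl; simp at hne
  rcases h.ord_total (c₀ := c₀) hne' with hO | hO
  · exact ⟨y, hy, hyA, hO⟩
  · obtain ⟨g, hg, ga, gx⟩ := hy
    have hy' : Tp G A x (g⁻¹ x) := by
      refine ⟨g⁻¹, G.inv_mem hg, fun a ha => ?_, rfl⟩
      rw [Equiv.Perm.inv_eq_iff_eq]; exact (ga a ha).symm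
    refine ⟨g⁻¹ x, hy', hy'.notMem hx, ?_⟩
    have := h.ord_inv1 (G.inv_mem hg) hO
    rw [← gx] at this
    simpa using this

theorem ord_down {A : Finset V} {x : V} (hx : x ∉ A) :
    ∃ y, Tp G A x y ∧ y ∉ A ∧ Ord R G I c₀ y x := by
  obtain ⟨y, hy, hyA, hO⟩ := h.ord_up (c₀ := c₀) hx
  obtain ⟨g, hg, ga, gx⟩ := hy
  have hy' : Tp G A x (g⁻¹ x) := by
    refine ⟨g⁻¹, G.inv_mem hg, fun a ha => ?_, rfl⟩
    rw [Equiv.Perm.inv_eq_iff_eq]; exact (ga a ha).symm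
  refine ⟨g⁻¹ x, hy', hy'.notMem hx, ?_⟩
  have := h.ord_inv1 (G.inv_mem hg) hO
  rw [← gx] at this
  simpa using this

theorem ord_dense {x z : V} (hO : Ord R G I c₀ x z) :
    ∃ y, Ord R G I c₀ x y ∧ Ord R G I c₀ y z := by
  have hne := h.ord_ne hO
  obtain ⟨y, hy, -, hO'⟩ := h.ord_down (c₀ := c₀) (A := {x}) (x := z) (by simpa using hne.symm)
  exact ⟨y, (h.ord_tp hy (by simp)).1 hO, hO'⟩

theorem ord_dense_avoid (D : Finset V) : ∀ {x z : V}, Ord R G I c₀ x z →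
    ∃ y, Ord R G I c₀ x y ∧ Ord R G I c₀ y z ∧ y ∉ D := by
  induction D using Finset.induction_on with
  | empty =>
    intro x z hO
    obtain ⟨y, h1, h2⟩ := h.ord_dense hO
    exact ⟨y, h1, h2, by simp⟩
  | insert d D hd ih =>
    intro x z hO
    obtain ⟨y, h1, h2, h3⟩ := ih hO
    by_cases hyd : y = d
    · obtain ⟨y', k1, k2, k3⟩ := ih h1
      refine ⟨y', k1, h.ord_trans k2 h2, ?_⟩
      have := h.ord_ne k2
      simp only [Finset.mem_insert, not_or]
      exact ⟨by rw [← hyd]; exact this, k3⟩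
    · refine ⟨y, h1, h2, ?_⟩
      simp only [Finset.mem_insert, not_or]
      exact ⟨hyd, h3⟩

/-- Values at a point independent from the base. -/
theorem bval {A : Finset V} {b c a : V} (hc : Tp G ∅ c₀ c) (h1 : I ∅ A {c}) (h2 : I A {b} {c})
    (ha : a ∈ A) : R b c a ↔ Ord R G I c₀ a b := by
  have h3 : I ∅ (A ∪ {b}) {c} := h.trl _ _ _ _ h1 (by simpa using h2)
  rw [← h.ord_val hc h3 (x := a) (y := b) (by simp [ha]) (by simp)]
  exact ⟨fun hR => h.rot _ _ _ hR, fun hR => h.rot2 hR⟩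

end Ctx

end H48SWIR
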