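import Pool.Agent.H48SWIR.Order

/-!
# The star rule
-/

set_option linter.unusedSectionVars false

namespace H48SWIR

universe u

variable {V : Type u} [DecidableEq V]

/-- The order of the mirror relation. -/
abbrev OrdM (R : V → V → V → Prop) (G : Subgroup (Equiv.Perm V))
    (I : Finset V → Finset V → Finset V → Prop) (b₀ x y : V) : Prop :=
  Ord R G (fun A B C => I A C B) b₀ x y

namespace Ctx

variable {R : V → V → V → Prop} {G : Subgroup (Equiv.Perm V)}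
  {I : Finset V → Finset V → Finset V → Prop}

theorem lemC (h : Ctx R G I) (c₀ b₀ : V) {A : Finset V} {b : V} (hb : b ∉ A) :
    ∃ b' c₂ c₃, Tp G A b b' ∧ c₂ ≠ c₃ ∧ c₂ ∉ A ∧ c₃ ∉ A ∧ Tp G ∅ c₀ c₂ ∧ Tp G ∅ c₀ c₃ ∧
      I ∅ A {c₂} ∧ I ∅ A {c₃} ∧ I A {b'} {c₂, c₃} ∧ (∀ a ∈ A, R a c₃ c₂) ∧ R b' c₂ c₃ := by
  have hm := h.mirror
  obtain ⟨y₂, hy₂, hIy₂, hy₂A⟩ := h.ord_ex (c₀ := c₀) A
  -- the point `z`
  obtain ⟨e, he, heA, hSe⟩ := hm.ord_down (c₀ := b₀) hy₂A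
  obtain ⟨z, hz, hzb, hzY⟩ := h.block (A ∪ {y₂}) e (by
    simp only [Finset.mem_union, Finset.mem_singleton, not_or]
    exact ⟨heA, hm.ord_ne hSe⟩) (fun v => if v = y₂ then 1 else 0)
  simp only [Finset.mem_union, Finset.mem_singleton, not_or] at hz
  have hAy₂ : ∀ a ∈ A, a ≠ y₂ := by rintro a ha rfl; exact hy₂A ha
  have z1 : ∀ a ∈ A, R z a y₂ := fun a ha => hzb a (by simp [ha]) y₂ (by simp)
    (by simp [hAy₂ a ha])
  have z2 : Tp G A y₂ z := he.trans (hzY A Finset.subset_union_left (by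
    intro u hu w hw hlt
    simp [hAy₂ u hu, hAy₂ w hw] at hlt))
  have z3 : OrdM R G I b₀ z y₂ := (hm.ord_tp' (hzY {y₂} (by simp) (by simp)) (by simp)).1 hSe
  have hAz : ∀ a ∈ A, a ≠ z := by rintro a ha rfl; exact hz.1 ha
  -- the point `y₁`
  obtain ⟨e₁, he₁, he₁A, hSe₁⟩ := hm.ord_down (c₀ := b₀) hz.1
  have he₁y₂ : OrdM R G I b₀ e₁ y₂ := hm.ord_trans hSe₁ z3
  obtain ⟨y₁, hy₁, hyb, hyY⟩ := h.block (A ∪ {y₂, z}) e₁ (by
    simp only [Finset.mem_union, Finset.mem_insert, Finset.mem_singleton, not_or]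
    exact ⟨he₁A, hm.ord_ne he₁y₂, hm.ord_ne hSe₁⟩)
    (fun v => if v = y₂ then 0 else if v = z then 2 else 1)
  simp only [Finset.mem_union, Finset.mem_insert, Finset.mem_singleton, not_or] at hy₁
  have y1 : ∀ a ∈ A, R y₁ y₂ a := fun a ha => hyb y₂ (by simp) a (by simp [ha])
    (by simp [hAy₂ a ha, hAz a ha])
  have y2 : ∀ a ∈ A, R y₁ a z := fun a ha => hyb a (by simp [ha]) z (by simp)
    (by simp [hAy₂ a ha, hAz a ha, hz.2])
  have y3 : R y₁ y₂ z := hyb y₂ (by simp) z (by simp) (by simp [hz.2])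
  have y4 : Tp G A z y₁ := he₁.trans (hyY A Finset.subset_union_left (by
    intro u hu w hw hlt
    simp [hAy₂ u hu, hAy₂ w hw, hAz u hu, hAz w hw] at hlt))
  have y5 : OrdM R G I b₀ y₁ z := (hm.ord_tp' (hyY {z} (by simp) (by simp)) (by simp)).1 hSe₁
  have y6 : Tp G A y₂ y₁ := z2.trans y4
  -- properties of the orbit
  have hq : ∀ y, Tp G A y₂ y → Tp G ∅ c₀ y ∧ I ∅ A {y} := by
    rintro y hy
    refine ⟨hy₂.trans (hy.mono (by simp)), ?_⟩
    obtain ⟨g, hg, ga, rfl⟩ := hy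
    exact h.inv1 hg (by simp) ga hIy₂
  have q2 := hq y₂ (Tp.refl _ _)
  have qz := hq z z2
  have q1 := hq y₁ y6
  obtain ⟨b', hb', hIb'⟩ := h.exl A {y₁, z, y₂} b
  have hb'A : b' ∉ A := hb'.notMem hb
  by_cases c1 : R b' z y₂
  · exact ⟨b', z, y₂, hb', hz.2, hz.1, hy₂A, qz.1, q2.1, qz.2, q2.2,
      h.hr hIb' subset_rfl Finset.subset_union_left (by simp),
      fun a ha => h.rot _ _ _ (z1 a ha), c1⟩
  by_cases c2 : R b' y₁ z
  · exact ⟨b', y₁, z, hb', hy₁.2.2, hy₁.1, hz.1, q1.1, qz.1, q1.2, qz.2,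
      h.hr hIb' subset_rfl Finset.subset_union_left (by simp [Finset.insert_subset_iff]),
      fun a ha => h.rot _ _ _ (y2 a ha), c2⟩
  by_cases c3 : R b' y₂ y₁
  · exact ⟨b', y₂, y₁, hb', Ne.symm hy₁.2.1, hy₂A, hy₁.1, q2.1, q1.1, q2.2, q1.2,
      h.hr hIb' subset_rfl Finset.subset_union_left (by simp [Finset.insert_subset_iff]),
      fun a ha => h.rot2 (y1 a ha), c3⟩
  exfalso
  have d1 : b' ≠ y₁ := h.disj (h.hr hIb' subset_rfl Finset.subset_union_left (by simp)) hy₁.1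
  have d2 : b' ≠ y₂ := h.disj (h.hr hIb' subset_rfl Finset.subset_union_left (by simp)) hy₂A
  have d3 : b' ≠ z := h.disj (h.hr hIb' subset_rfl Finset.subset_union_left (by simp)) hz.1
  have e2 : R b' z y₁ := h.flip c2 d1 hy₁.2.2 d3.symm
  have e3 : R b' y₁ y₂ := h.flip c3 d2 (Ne.symm hy₁.2.1) d1.symm
  -- the point `b₁`
  obtain ⟨b₁, hb₁, hIb₁, hb₁n⟩ := hm.ord_ex (c₀ := b₀) (A ∪ {y₁, z, y₂, b'})
  simp only [Finset.mem_union, Finset.mem_insert, Finset.mem_singleton, not_or] at hb₁n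
  obtain ⟨hb₁A, hb₁y₁, hb₁z, hb₁y₂, hb₁b'⟩ := hb₁n
  have hS : ∀ u w, u ∈ A ∪ {y₁, z, y₂, b'} → w ∈ A ∪ {y₁, z, y₂, b'} →
      (R b₁ u w ↔ OrdM R G I b₀ u w) := fun u w hu hw => hm.ord_val hb₁ hIb₁ hu hw
  have s12 : OrdM R G I b₀ y₁ y₂ := hm.ord_trans y5 z3
  -- no element of `A` between `y₁` and `y₂`
  have hcut : ∀ u ∈ A, (OrdM R G I b₀ u y₂ ↔ OrdM R G I b₀ u y₁) := fun u hu =>
    hm.ord_tp y6 hu
  have hcut' : ∀ u ∈ A, (OrdM R G I b₀ y₂ u ↔ OrdM R G I b₀ y₁ u) := fun u hu =>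
    hm.ord_tp' y6 hu
  -- the tournament
  set P : V → Prop := fun u => u = y₂ ∨ (u ∈ A ∧ OrdM R G I b₀ u y₂) with hP
  have hb'mem : b' ∉ A ∪ {y₁, y₂} := by
    simp only [Finset.mem_union, Finset.mem_insert, Finset.mem_singleton, not_or]
    exact ⟨hb'A, d1, d2⟩
  obtain ⟨b₂, hb₂n, hb₂v, hb₂Y⟩ := h.pm (A ∪ {y₁, y₂} ∪ {b'}) b₁
    (fun u w => (u ≠ b' ∧ w ≠ b' ∧ OrdM R G I b₀ u w) ∨ (w = b' ∧ u ≠ b' ∧ P u) ∨
      (u = b' ∧ w ≠ b' ∧ ¬ P w)) (by
      simp only [Finset.mem_union, Finset.mem_insert, Finset.mem_singleton, not_or]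
      exact ⟨⟨hb₁A, hb₁y₁, hb₁y₂⟩, hb₁b'⟩)
    (by
      rintro u - w - (⟨k1, k2, k3⟩ | ⟨k1, k2, k3⟩ | ⟨k1, k2, k3⟩) (⟨l1, l2, l3⟩ | ⟨l1, l2, l3⟩ | ⟨l1, l2, l3⟩)
      · exact hm.ord_asym k3 l3
      · exact k1 l1
      · exact k2 l1
      · exact l1 k1
      · exact k2 l1
      · exact l3 k3
      · exact l2 k1
      · exact k3 l3
      · exact k2 l1)
    (by
      intro u hu w hw hne
      by_cases hu' : u = b'
      · by_cases hw' : P w
        · exact Or.inr (Or.inr (Or.inl ⟨hu', by rintro rfl; exact hne hu', hw'⟩))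
        · exact Or.inl (Or.inr (Or.inr ⟨hu', by rintro rfl; exact hne hu', hw'⟩))
      · by_cases hw' : w = b'
        · by_cases hu'' : P u
          · exact Or.inl (Or.inr (Or.inl ⟨hw', hu', hu''⟩))
          · exact Or.inr (Or.inr (Or.inr ⟨hw', hu', hu''⟩))
        · rcases hm.ord_total (c₀ := b₀) hne with hO | hO
          · exact Or.inl (Or.inl ⟨hu', hw', hO⟩)
          · exact Or.inr (Or.inl ⟨hw', hu', hO⟩))
    (by
      have key : ∀ u ∈ A ∪ {y₁, y₂} ∪ {b'}, ∀ w ∈ A ∪ {y₁, y₂} ∪ {b'}, u ≠ b' → w ≠ b' → P u →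
          ¬ P w → OrdM R G I b₀ w u → w = y₁ ∧ u = y₂ := by
        intro u hu w hw hub hwb hPu hPw hO
        simp only [Finset.mem_union, Finset.mem_insert, Finset.mem_singleton] at hw
        rcases hw with (hw | hw | hw) | hw
        · exfalso
          apply hPw
          refine Or.inr ⟨hw, ?_⟩
          rcases hPu with hPu | hPu
          · rw [← hPu]; exact hO
          · exact hm.ord_trans hO hPu.2
        · refine ⟨hw, ?_⟩
          rcases hPu with hPu | hPu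
          · exact hPu
          · exfalso
            rw [hw, ← hcut' u hPu.1] at hO
            exact hm.ord_asym hO hPu.2
        · exact absurd (Or.inl hw) hPw
        · exact absurd hw hwb
      rintro u hu v hv w hw (⟨k1, k2, k3⟩ | ⟨k1, k2, k3⟩ | ⟨k1, k2, k3⟩) (⟨l1, l2, l3⟩ | ⟨l1, l2, l3⟩ | ⟨l1, l2, l3⟩) (⟨m1, m2, m3⟩ | ⟨m1, m2, m3⟩ | ⟨m1, m2, m3⟩)
      · exact absurd m3 (hm.ord_asym (hm.ord_trans k3 l3))
      · exact absurd m1 k1
      · exact absurd m1 l2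
      · exact absurd l1 m1
      · exact absurd m1 k1
      · -- `u → v`, `v → b'`, `b' → u`
        obtain ⟨n1, n2⟩ := key v hv u hu k2 k1 l3 m3 k3
        rw [n1, n2, l1]
        exact h.rot _ _ _ e3
      · exact absurd l1 k2
      · exact absurd l1 k2
      · exact absurd l1 k2
      · exact absurd k1 l1
      · exact absurd m1 k2
      · exact absurd k1 l1
      · exact absurd k1 l2
      · exact absurd k1 l2
      · exact absurd k1 l2
      · -- `u → b'`, `b' → w`, `w → u`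
        obtain ⟨n1, n2⟩ := key u hu w hw k2 l2 k3 l3 m3
        rw [n1, n2, k1]
        exact h.rot2 e3
      · exact absurd m1 k2
      · exact absurd m1 l2
      · exact absurd k1 m2
      · -- `b' → v`, `v → w`, `w → b'`
        obtain ⟨n1, n2⟩ := key w hw v hv l2 l1 m3 k3 l3
        rw [n1, n2, k1]
        exact e3
      · exact absurd m1 l2
      · exact absurd l1 m1
      · exact absurd l1 m2
      · exact absurd k1 (by rw [l1] at m1; exact absurd m1.symm (by intro hh; exact m2 (by rw [k1])))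
      · exact absurd l1 k2
      · exact absurd l1 k2
      · exact absurd l1 k2)
  have hAp : A ∪ {y₁, y₂} ⊆ A ∪ {y₁, z, y₂, b'} := by
    intro u hu
    simp only [Finset.mem_union, Finset.mem_insert, Finset.mem_singleton] at hu ⊢
    tauto
  have m₁ : y₁ ∈ A ∪ {y₁, y₂} := by simp
  have m₂ : y₂ ∈ A ∪ {y₁, y₂} := by simp
  have t₂ : Tp G (A ∪ {y₁, y₂}) b₁ b₂ := hb₂Y (A ∪ {y₁, y₂}) Finset.subset_union_left (by
    intro u hu w hw
    have hub : u ≠ b' := by rintro rfl; exact hb'mem hu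
    have hwb : w ≠ b' := by rintro rfl; exact hb'mem hw
    rw [hS u w (hAp hu) (hAp hw)]
    constructor
    · intro hO; exact Or.inl ⟨hub, hwb, hO⟩
    · rintro (⟨_, _, k⟩ | ⟨k, _⟩ | ⟨k, _⟩)
      · exact k
      · exact absurd k hwb
      · exact absurd k hub)
  have v1 : R b₂ y₂ b' := (hb₂v y₂ (by simp) b' (by simp)).2
    (Or.inr (Or.inl ⟨rfl, d2.symm, Or.inl rfl⟩))
  have v2 : R b₂ b' y₁ := (hb₂v b' (by simp) y₁ (by simp)).2
    (Or.inr (Or.inr ⟨rfl, d1.symm, by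
      rintro (k | k)
      · exact hy₁.2.1 k
      · exact hy₁.1 k.1⟩))
  obtain ⟨z', hz', hIz'⟩ := h.exr (A ∪ {y₁, y₂}) {b', b₂} z
  have i1 : I (A ∪ {y₁, y₂}) {b'} {z} := h.hr hIb' Finset.subset_union_left (by
    intro u hu
    simp only [Finset.mem_union, Finset.mem_insert, Finset.mem_singleton] at hu ⊢
    tauto) (by simp)
  have i2 : I (A ∪ {y₁, y₂}) {b'} {z'} := h.hl hIz' subset_rfl Finset.subset_union_left (by simp)
  have i3 : I (A ∪ {y₁, y₂}) {b₁} {z} := h.hr hIb₁ (by simp) (by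
    intro u hu
    simp only [Finset.mem_union, Finset.mem_insert, Finset.mem_singleton] at hu ⊢
    tauto) (by simp)
  have i4 : I (A ∪ {y₁, y₂}) {b₂} {z'} := h.hl hIz' subset_rfl Finset.subset_union_left (by simp)
  have hzn : z ∉ A ∪ {y₁, y₂} := by
    simp only [Finset.mem_union, Finset.mem_insert, Finset.mem_singleton, not_or]
    exact ⟨hz.1, Ne.symm hy₁.2.2, hz.2⟩
  have hz'n := hz'.notMem hzn
  have w1 : ¬ R b' z' y₂ := by rw [← h.val i1 i2 (Tp.refl _ _) hz' m₂]; exact c1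
  have w2 : R b' z' y₁ := (h.val i1 i2 (Tp.refl _ _) hz' m₁).1 e2
  have w3 : R b₂ z' y₂ := (h.val i3 i4 t₂ hz' m₂).1 ((hS z y₂ (by simp) (by simp)).2 z3)
  have w4 : ¬ R b₂ z' y₁ := by
    rw [← h.val i3 i4 t₂ hz' m₁, hS z y₁ (by simp) (by simp)]
    exact hm.ord_asym y5
  have n1 : b' ≠ z' := h.disj i2 hz'n
  have n2 : b₂ ≠ z' := h.disj i4 hz'n
  have n3 : z' ≠ y₂ := by rintro rfl; exact hz'n m₂
  have n4 : z' ≠ y₁ := by rintro rfl; exact hz'n m₁
  have n5 : y₁ ≠ b₂ := by rintro rfl; exact h.irr3 v2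
  have f1 : R b' y₂ z' := h.flip w1 n1 n3 d2.symm
  have f2 : R b₂ y₁ z' := h.flip w4 n2 n4 n5
  have g1 : R b' b₂ z' := h.free y₂ b' b₂ z' (h.rot _ _ _ v1) (h.rot2 w3) (h.rot _ _ _ f1)
  have g2 : R b' z' b₂ := h.free y₁ b' z' b₂ (h.rot2 w2) (h.rot _ _ _ f2) (h.rot2 v2)
  exact h.asym _ _ _ g1 g2

/-- The star rule on the left. -/
theorem star (h : Ctx R G I) {c₀ : V} {A : Finset V} {b c x x' : V} (hI : I A {b} {c})
    (hb : b ∉ A) (hc : c ∉ A) (hx : x ∈ A) (hx' : x' ∈ A) (h1 : R b c x)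
    (h2 : ¬ Ord R G I c₀ x b) (h3 : ¬ R b c x') (h4 : Ord R G I c₀ x' b) : False := by
  obtain ⟨b₁, c₂, c₃, hb₁, hne, hc₂A, hc₃A, hc₂, hc₃, hI₂, hI₃, hI₁, hA, hR⟩ := h.lemC c₀ b hb
  -- the point `c₁`
  obtain ⟨e, he, heA, heD⟩ := h.avoid hc {c₂, c₃}
  simp only [Finset.mem_insert, Finset.mem_singleton, not_or] at heD
  have hA2 : ∀ a ∈ A, a ≠ c₂ := by rintro a ha rfl; exact hc₂A ha
  have hA3 : ∀ a ∈ A, a ≠ c₃ := by rintro a ha rfl; exact hc₃A ha
  obtain ⟨c₁, hc₁n, hc₁v, hc₁Y⟩ := h.pm (A ∪ {c₂, c₃}) e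
    (fun u w => (u ∈ A ∧ w ∈ A ∧ R e u w) ∨ (u = c₂ ∧ w ∈ A) ∨ (u ∈ A ∧ w = c₃) ∨
      (u = c₃ ∧ w = c₂)) (by
      simp only [Finset.mem_union, Finset.mem_insert, Finset.mem_singleton, not_or]
      exact ⟨heA, heD.1, heD.2⟩)
    (by
      rintro u - w - (⟨k1, k2, k3⟩ | ⟨k1, k2⟩ | ⟨k1, k2⟩ | ⟨k1, k2⟩)
        (⟨l1, l2, l3⟩ | ⟨l1, l2⟩ | ⟨l1, l2⟩ | ⟨l1, l2⟩)
      · exact h.asym _ _ _ k3 l3
      · exact hA2 w k2 l1
      · exact hA3 u k1 l2
      · exact hA3 w k2 l1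
      · exact hA2 u l2 k1
      · exact hA2 w k2 l1
      · exact hne (k1.symm.trans l2)
      · exact hA3 w k2 l1
      · exact hA3 w l1 k2
      · exact hne (l1.symm.trans k2)
      · exact hA3 u k1 l2
      · exact hA2 u k1 l2
      · exact hA3 u l2 k1
      · exact hA3 u l2 k1
      · exact hA2 w l1 k2
      · exact hne (l2.symm.trans k1))
    (by
      intro u hu w hw huw
      simp only [Finset.mem_union, Finset.mem_insert, Finset.mem_singleton] at hu hw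
      rcases hu with hu | hu | hu
      · rcases hw with hw | hw | hw
        · rcases h.tot e u w (by rintro rfl; exact heA hu) huw (by rintro rfl; exact heA hw)
            with k | k
          · exact Or.inl (Or.inl ⟨hu, hw, k⟩)
          · exact Or.inr (Or.inl ⟨hw, hu, k⟩)
        · exact Or.inr (Or.inr (Or.inl ⟨hw, hu⟩))
        · exact Or.inl (Or.inr (Or.inr (Or.inl ⟨hu, hw⟩)))
      · rcases hw with hw | hw | hw
        · exact Or.inl (Or.inr (Or.inl ⟨hu, hw⟩))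
        · exact absurd (hu.trans hw.symm) huw
        · exact Or.inr (Or.inr (Or.inr (Or.inr ⟨hw, hu⟩)))
      · rcases hw with hw | hw | hw
        · exact Or.inr (Or.inr (Or.inr (Or.inl ⟨hw, hu⟩)))
        · exact Or.inl (Or.inr (Or.inr (Or.inr ⟨hu, hw⟩)))
        · exact absurd (hu.trans hw.symm) huw)
    (by
      have hRA : ∀ a ∈ A, R a c₃ c₂ := hA
      rintro u - v - w - (⟨k1, k2, k3⟩ | ⟨k1, k2⟩ | ⟨k1, k2⟩ | ⟨k1, k2⟩)
        (⟨l1, l2, l3⟩ | ⟨l1, l2⟩ | ⟨l1, l2⟩ | ⟨l1, l2⟩)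
        (⟨m1, m2, m3⟩ | ⟨m1, m2⟩ | ⟨m1, m2⟩ | ⟨m1, m2⟩)
      · exact h.free e u v w k3 l3 m3
      · exact absurd m1 (hA2 w l2)
      · exact absurd m2 (hA3 u k1)
      · exact absurd m1 (hA3 w l2)
      · exact absurd l1 (hA2 v k2)
      · exact absurd l1 (hA2 v k2)
      · exact absurd l1 (hA2 v k2)
      · exact absurd l1 (hA2 v k2)
      · exact absurd l2 (hA3 w m1)
      · exact absurd (m1.symm.trans l2) hne
      · exact absurd m2 (hA3 u k1)
      · exact absurd m2 (hA2 u k1)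
      · exact absurd l1 (hA3 v k2)
      · exact absurd l1 (hA3 v k2)
      · exact absurd l1 (hA3 v k2)
      · exact absurd l1 (hA3 v k2)
      · exact absurd k1 (hA2 u m2)
      · exact absurd k1 (hA2 u m2)
      · exact absurd (k1.symm.trans m2) hne
      · exact absurd m1 (hA3 w l2)
      · exact absurd l1 (hA2 v k2)
      · exact absurd l1 (hA2 v k2)
      · exact absurd l1 (hA2 v k2)
      · exact absurd l1 (hA2 v k2)
      · exact absurd l2 (hA3 w m1)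
      · exact absurd (m1.symm.trans l2) hne
      · exact absurd (k1.symm.trans m2) hne
      · -- `c₂ → v → c₃ → c₂`
        rw [k1, l2]
        exact h.rot2 (hRA v k2)
      · exact absurd l1 (hA3 v k2)
      · exact absurd l1 (hA3 v k2)
      · exact absurd l1 (hA3 v k2)
      · exact absurd l1 (hA3 v k2)
      · exact absurd k2 (hA3 v l1)
      · exact absurd k2 (hA3 v l1)
      · exact absurd k2 (hA3 v l1)
      · exact absurd k2 (hA3 v l1)
      · exact absurd (l1.symm.trans k2) hne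
      · exact absurd (l1.symm.trans k2) hne
      · exact absurd (l1.symm.trans k2) hne
      · exact absurd (l1.symm.trans k2) hne
      · exact absurd k2 (hA3 v l1)
      · exact absurd k2 (hA3 v l1)
      · exact absurd k2 (hA3 v l1)
      · exact absurd k2 (hA3 v l1)
      · exact absurd l2 (hA2 w m1)
      · -- `u → c₃ → c₂ → u`
        rw [k2, l2]
        exact hRA u k1
      · exact absurd l2 (hA2 w m1)
      · exact absurd (l2.symm.trans m1) hne
      · exact absurd k2 (hA2 v l1)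
      · exact absurd k2 (hA2 v l1)
      · exact absurd k2 (hA2 v l1)
      · exact absurd k2 (hA2 v l1)
      · exact absurd m2 (by intro hh; exact hA3 u hh k1)
      · exact absurd m2 (by intro hh; exact hA3 u hh k1)
      · -- `c₃ → c₂ → w → c₃`
        rw [k1, k2]
        exact h.rot _ _ _ (hRA w l2)
      · exact absurd (m2.symm.trans k1) hne
      · exact absurd k2 (hA2 v l1)
      · exact absurd k2 (hA2 v l1)
      · exact absurd k2 (hA2 v l1)
      · exact absurd k2 (hA2 v l1)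
      · exact absurd (k2.symm.trans l1) hne
      · exact absurd (k2.symm.trans l1) hne
      · exact absurd (k2.symm.trans l1) hne
      · exact absurd (k2.symm.trans l1) hne)
  simp only [Finset.mem_union, Finset.mem_insert, Finset.mem_singleton, not_or] at hc₁n
  obtain ⟨hc₁A, hc₁c₂, hc₁c₃⟩ := hc₁n
  have t₁ : Tp G A c c₁ := he.trans (hc₁Y A Finset.subset_union_left (by
    intro u hu w hw
    constructor
    · intro hR; exact Or.inl ⟨hu, hw, hR⟩
    · rintro (⟨_, _, k⟩ | ⟨k, _⟩ | ⟨_, k⟩ | ⟨k, _⟩)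
      · exact k
      · exact absurd k (hA2 u hu)
      · exact absurd k (hA3 w hw)
      · exact absurd k (hA3 u hu)))
  have r1 : ∀ a ∈ A, R c₁ c₂ a := fun a ha => (hc₁v c₂ (by simp) a (by simp [ha])).2
    (Or.inr (Or.inl ⟨rfl, ha⟩))
  have r2 : ∀ a ∈ A, R c₁ a c₃ := fun a ha => (hc₁v a (by simp [ha]) c₃ (by simp)).2
    (Or.inr (Or.inr (Or.inl ⟨ha, rfl⟩)))
  have r3 : R c₁ c₃ c₂ := (hc₁v c₃ (by simp) c₂ (by simp)).2
    (Or.inr (Or.inr (Or.inr ⟨rfl, rfl⟩)))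
  obtain ⟨b₂, hb₂, hIb₂⟩ := h.exl A {c₁, c₂, c₃} b
  have hb₂A := hb₂.notMem hb
  have j1 : I A {b₂} {c₁} := h.hr hIb₂ subset_rfl Finset.subset_union_left (by simp)
  have j2 : I A {b₂} {c₂} := h.hr hIb₂ subset_rfl Finset.subset_union_left (by simp)
  have j3 : I A {b₂} {c₃} := h.hr hIb₂ subset_rfl Finset.subset_union_left (by simp)
  have d1 := h.disj j1 hc₁A
  have d2 := h.disj j2 hc₂A
  have d3 := h.disj j3 hc₃A
  have R23 : R b₂ c₂ c₃ := (h.val2 hI₁ (h.hr hIb₂ subset_rfl Finset.subset_union_left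
    (by intro u hu; simp only [Finset.mem_insert, Finset.mem_singleton] at hu ⊢; tauto))
    (hb₁.symm.trans hb₂) (by simp) (by simp)).1 hR
  have a1 : R b₂ c₁ x := (h.val hI j1 hb₂ t₁ hx).1 h1
  have a2 : ¬ R b₂ c₁ x' := by rw [← h.val hI j1 hb₂ t₁ hx']; exact h3
  have a3 : ¬ R b₂ c₂ x := by
    rw [h.bval hc₂ hI₂ j2 hx, ← h.ord_tp hb₂ hx]; exact h2
  have a4 : R b₂ c₃ x' := by
    rw [h.bval hc₃ hI₃ j3 hx', ← h.ord_tp hb₂ hx']; exact h4
  have b1 : R b₂ x c₂ := h.flip a3 d2 (hA2 x hx).symm (by rintro rfl; exact hb₂A hx)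
  have b2 : R b₂ x' c₁ := h.flip a2 d1 (by rintro rfl; exact hc₁A hx')
    (by rintro rfl; exact hb₂A hx')
  have e1 : R b₂ c₁ c₂ := h.free x b₂ c₁ c₂ (h.rot2 a1) (h.rot2 (r1 x hx)) (h.rot _ _ _ b1)
  have e2 : R b₂ c₃ c₁ := h.free x' b₂ c₃ c₁ (h.rot2 a4) (h.rot _ _ _ (r2 x' hx'))
    (h.rot _ _ _ b2)
  have e3 : R c₁ c₂ c₃ := h.free b₂ c₁ c₂ c₃ e1 R23 e2
  exact h.asym _ _ _ e3 r3

/-- The star rule on the right. -/
theorem starM (h : Ctx R G I) {b₀ : V} {A : Finset V} {b c x x' : V} (hI : I A {b} {c})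
    (hb : b ∉ A) (hc : c ∉ A) (hx : x ∈ A) (hx' : x' ∈ A) (h1 : R b c x)
    (h2 : ¬ OrdM R G I b₀ c x) (h3 : ¬ R b c x') (h4 : OrdM R G I b₀ c x') : False := by
  have hbc : b ≠ c := h.disj hI hc
  have hne : c ≠ x := by rintro rfl; exact hc hx
  have hne' : c ≠ x' := by rintro rfl; exact hc hx'
  refine h.mirror.star (c₀ := b₀) (b := c) (c := b) (x := x') (x' := x) hI hc hb hx' hx ?_ ?_ ?_ ?_
  · exact h.rot2 (h.flip h3 hbc hne' (by rintro rfl; exact hb hx'))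
  · exact h.mirror.ord_asym h4
  · intro hR
    exact h.asym _ _ _ h1 (h.rot _ _ _ hR)
  · exact (h.mirror.ord_not hne).1 h2

/-- Comparison with a larger point. -/
theorem lemE (h : Ctx R G I) {c₀ : V} {A : Finset V} {b b₁ c w a : V} (hI : I A {b, b₁} {c})
    (hb : b ∉ A) (hb₁ : b₁ ∉ A) (hc : c ∉ A) (hw : w ∈ A) (ha : a ∈ A)
    (h1 : Ord R G I c₀ w b₁) (h2 : ¬ R b₁ c w) (h3 : R b₁ c a) (h4 : Ord R G I c₀ b₁ b)
    (h5 : R a b b₁) : R b c a := by
  by_contra hcon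
  have hbc : b ≠ c := h.disj (h.hl hI subset_rfl Finset.subset_union_left (by simp)) hc
  have hne := h.ord_ne h4
  have hI' : I (A ∪ {b}) {b₁} {c} := h.hl hI Finset.subset_union_left (by
    intro u hu; simp only [Finset.mem_union, Finset.mem_insert, Finset.mem_singleton] at hu ⊢
    tauto) (by simp)
  have hba : R b a c := h.flip hcon hbc (by rintro rfl; exact hc ha) (by rintro rfl; exact hb ha)
  have key : R b₁ c b := h.free a b₁ c b (h.rot2 h3) (h.rot _ _ _ hba) h5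
  refine h.star (c₀ := c₀) hI' ?_ ?_ (x := b) (x' := w) (by simp) (by simp [hw]) key
    (h.ord_asym h4) h2 h1
  · simp only [Finset.mem_union, Finset.mem_singleton, not_or]; exact ⟨hb₁, hne⟩
  · simp only [Finset.mem_union, Finset.mem_singleton, not_or]; exact ⟨hc, hbc.symm⟩

/-- Comparison with a smaller point. -/
theorem lemE' (h : Ctx R G I) {c₀ : V} {A : Finset V} {b b₂ c w a : V} (hI : I A {b, b₂} {c})
    (hb : b ∉ A) (hb₂ : b₂ ∉ A) (hc : c ∉ A) (hw : w ∈ A) (ha : a ∈ A)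
    (h1 : Ord R G I c₀ b₂ w) (h2 : R b₂ c w) (h3 : ¬ R b₂ c a) (h4 : Ord R G I c₀ b b₂)
    (h5 : R a b₂ b) : ¬ R b c a := by
  intro hcon
  have hbc : b ≠ c := h.disj (h.hl hI subset_rfl Finset.subset_union_left (by simp)) hc
  have hb₂c : b₂ ≠ c := h.disj (h.hl hI subset_rfl Finset.subset_union_left (by simp)) hc
  have hne := h.ord_ne h4
  have hI' : I (A ∪ {b}) {b₂} {c} := h.hl hI Finset.subset_union_left (by
    intro u hu; simp only [Finset.mem_union, Finset.mem_insert, Finset.mem_singleton] at hu ⊢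
    tauto) (by simp)
  have hba : R b₂ a c := h.flip h3 hb₂c (by rintro rfl; exact hc ha) (by rintro rfl; exact hb₂ ha)
  have key : ¬ R b₂ c b := by
    intro hR
    exact h.asym _ _ _ hR (h.rot _ _ _ (h.free a c b₂ b (h.rot _ _ _ hba) h5 (h.rot2 hcon)))
  refine h.star (c₀ := c₀) hI' ?_ ?_ (x := w) (x' := b) (by simp [hw]) (by simp) h2
    (h.ord_asym h1) key h4
  · simp only [Finset.mem_union, Finset.mem_singleton, not_or]; exact ⟨hb₂, hne.symm⟩
  · simp only [Finset.mem_union, Finset.mem_singleton, not_or]; exact ⟨hc, hbc.symm⟩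

end Ctx

end H48SWIR
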